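import Pool.Agent.IndComp.Count

/-!
# Basic facts on independent sets
-/

namespace Pool.Agent.IndComp

open Subgroup

section general

variable {G : Type*} [Group G]

theorem Indep.mono {A B : Set G} (hB : Indep B) (h : A ⊆ B) : Indep A := by
  intro a ha hc
  exact hB a (h ha) (closure_mono (Set.sdiff_subset_sdiff_left h) hc)

/-- dependence of `insert c A` -/
theorem dep_insert {A : Set G} {c : G} (hcA : c ∉ A) (h : ¬ Indep (insert c A)) :
    c ∈ closure A ∨ ∃ i ∈ A, i ∈ closure (insert c (A \ {i})) := by
  unfold Indep at h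
  push Not at h
  obtain ⟨b, hb, hbc⟩ := h
  rcases hb with rfl | hb
  · left
    have : insert b A \ {b} = A := by
      rw [Set.insert_sdiff_of_mem _ (Set.mem_singleton b)]
      exact Set.sdiff_singleton_eq_self hcA
    rwa [this] at hbc
  · right
    refine ⟨b, hb, ?_⟩
    have : insert c A \ {b} ⊆ insert c (A \ {b}) := by
      intro x hx
      rcases hx.1 with h | h
      · exact Or.inl h
      · exact Or.inr ⟨h, hx.2⟩
    exact closure_mono this hbc

theorem not_indep_insert {A : Set G} {c : G} (hcA : c ∉ A) (hc : c ∈ closure A) :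
    ¬ Indep (insert c A) := by
  intro h
  apply h c (Set.mem_insert _ _)
  refine closure_mono ?_ hc
  intro x hx
  exact ⟨Or.inr hx, fun hxc => hcA (by rw [← (show x = c from hxc)]; exact hx)⟩

theorem d_le [Finite G] {S : Set G} {H : Subgroup G} (h : closure S = H) : d H ≤ S.ncard :=
  Nat.sInf_le ⟨S, Set.toFinite S, rfl, h⟩

theorem exists_d [Finite G] (H : Subgroup G) : ∃ S : Set G, S.ncard = d H ∧ closure S = H := by
  have hne : {n | ∃ S : Set G, S.Finite ∧ S.ncard = n ∧ Subgroup.closure S = H}.Nonempty :=
    ⟨(H : Set G).ncard, H, Set.toFinite _, rfl, closure_eq H⟩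
  obtain ⟨S, _, h1, h2⟩ := Nat.sInf_mem hne
  exact ⟨S, h1, h2⟩

theorem closure_sdiff_eq {A : Set G} {b : G} (hb : b ∈ closure (A \ {b})) :
    closure (A \ {b}) = closure A := by
  apply le_antisymm (Subgroup.closure_mono Set.sdiff_subset)
  rw [closure_le]
  intro x hx
  by_cases hxb : x = b
  · rw [hxb]; exact hb
  · exact subset_closure ⟨hx, hxb⟩

/-- a generating set of minimum size is independent -/
theorem indep_of_ncard_le_d [Finite G] {S : Set G} (h : S.ncard ≤ d (closure S)) : Indep S := by
  intro b hb hbc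
  have h1 := closure_sdiff_eq hbc
  have h2 := d_le h1
  have h3 : (S \ {b}).ncard < S.ncard := Set.ncard_sdiff_singleton_lt_of_mem hb (Set.toFinite S)
  omega

theorem exists_basis [Finite G] (H : Subgroup G) :
    ∃ S : Set G, Indep S ∧ S.ncard = d H ∧ closure S = H := by
  obtain ⟨S, h1, h2⟩ := exists_d H
  exact ⟨S, indep_of_ncard_le_d (by rw [h2, h1]), h1, h2⟩

/-- a set generating `H`, whose image under adding a point outside a `d`-maximal subgroup -/
theorem indep_insert_of_maximal [Finite G] {A : Set G} {H : Subgroup G} (hA : closure A = H)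
    (hcard : A.ncard ≤ d H) (hmax : ∀ L : Subgroup G, H ≤ L → d L ≤ d H → L = H) {z : G}
    (hz : z ∉ H) : Indep (insert z A) := by
  have hzA : z ∉ A := fun h => hz (hA ▸ subset_closure h)
  intro b hb hbc
  have h1 := closure_sdiff_eq hbc
  have h2 := d_le h1
  have h3 : (insert z A \ {b}).ncard < (insert z A).ncard :=
    Set.ncard_sdiff_singleton_lt_of_mem hb (Set.toFinite _)
  have h4 : (insert z A).ncard = A.ncard + 1 := Set.ncard_insert_of_notMem hzA (Set.toFinite A)
  have h5 := hmax (closure (insert z A)) (by rw [← hA]; exact closure_mono (Set.subset_insert _ _))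
    (by omega)
  exact hz (h5 ▸ subset_closure (Set.mem_insert _ _))

end general

section pgroup

variable {G : Type*} [Group G] [Finite G] {p : ℕ} [Fact p.Prime]

theorem Indep.ncard_eq_d (hG : IsPGroup p G) {A : Set G} (hA : Indep A) :
    A.ncard = d (closure A) := by
  apply le_antisymm
  · obtain ⟨S, h1, h2⟩ := exists_d (closure A)
    rw [← h1]
    exact ncard_le_of_closure_le hG hA h2
  · exact d_le rfl

theorem indep_of_ncard_le (hG : IsPGroup p G) {A B : Set G} (hA : Indep A)
    (h : closure B = closure A) (hc : B.ncard ≤ A.ncard) : Indep B := by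
  apply indep_of_ncard_le_d
  rw [h, ← hA.ncard_eq_d hG]
  exact hc

/-- two homomorphisms agreeing up to a scalar on a generating set -/
theorem HomOn.eq_of_closure {H : Subgroup G} {f g : G → ZMod p} (hf : HomOn p H f)
    (hg : HomOn p H g) {A : Set G} (hA : closure A = H) (h : ∀ x ∈ A, f x = g x) {x : G}
    (hx : x ∈ H) : f x = g x := by
  have h1 := (hf.comb hg 1 (-1)).eq_zero_of_closure (N := A) (x := x)
    (by rw [← hA]; exact subset_closure)
    (by intro y hy; change 1 * f y + (-1) * g y = 0; rw [h y hy]; ring) (by rw [hA]; exact hx)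
  change 1 * f x + (-1) * g x = 0 at h1
  linear_combination h1

/-- exchange criterion -/
theorem gen_of_ne_zero (hG : IsPGroup p G) {H : Subgroup G} {A : Set G} (hA : closure A = H)
    {j : G} (hj : j ∈ A) {f : G → ZMod p} (hf : HomOn p H f) (hf0 : ∀ x ∈ A, x ≠ j → f x = 0)
    {c : G} (hc : c ∈ H) (hfc : f c ≠ 0) : closure (insert c (A \ {j})) = H := by
  have hAH : A ⊆ H := by rw [← hA]; exact subset_closure
  by_contra hne
  have hlt : closure (insert c (A \ {j})) < H := by
    refine lt_of_le_of_ne ((closure_le _).2 (Set.insert_subset hc ?_)) hne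
    exact Set.sdiff_subset.trans hAH
  obtain ⟨g, hg, hg0, b, hb, hgb⟩ := exists_homOn hG hlt
  have hfj : f j ≠ 0 := by
    intro h0
    apply hfc
    refine hf.eq_zero_of_closure (N := A) hAH ?_ (by rw [hA]; exact hc)
    intro x hx
    by_cases hxj : x = j
    · rw [hxj]; exact h0
    · exact hf0 x hx hxj
  have key : ∀ x ∈ H, g x = g j * (f j)⁻¹ * f x := by
    intro x hx
    refine hg.eq_of_closure (hf.smul (g j * (f j)⁻¹)) hA ?_ hx
    intro y hy
    change g y = g j * (f j)⁻¹ * f y
    by_cases hyj : y = j
    · rw [hyj, mul_assoc, inv_mul_cancel₀ hfj, mul_one]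
    · rw [hf0 y hy hyj, mul_zero]
      exact hg0 y (subset_closure (Or.inr ⟨hy, hyj⟩))
  have h1 := key c hc
  rw [hg0 c (subset_closure (Set.mem_insert _ _))] at h1
  have h2 : g j * (f j)⁻¹ = 0 := by
    rcases mul_eq_zero.1 h1.symm with h | h
    · exact h
    · exact absurd h hfc
  have h3 := key b hb
  rw [h2, zero_mul, hgb] at h3
  exact one_ne_zero h3

theorem eq_zero_of_not_gen (hG : IsPGroup p G) {H : Subgroup G} {A : Set G} (hA : closure A = H)
    {j : G} (hj : j ∈ A) {f : G → ZMod p} (hf : HomOn p H f) (hf0 : ∀ x ∈ A, x ≠ j → f x = 0)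
    {c : G} (hc : c ∈ H) (h : closure (insert c (A \ {j})) ≠ H) : f c = 0 := by
  by_contra h0
  exact h (gen_of_ne_zero hG hA hj hf hf0 hc h0)

/-- pair exchange -/
theorem pair_exchange (hG : IsPGroup p G) {D : Set G} {u v x y c : G}
    (huv : closure {u, v} = closure {x, y}) (hu : u ∈ closure (insert c (insert v D))) :
    x ∈ closure (insert c (insert y D)) ∨ y ∈ closure (insert c (insert x D)) := by
  by_contra hcon
  push Not at hcon
  obtain ⟨hx, hy⟩ := hcon
  set L := closure (insert c (insert x (insert y D))) with hL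
  have hcL : c ∈ L := subset_closure (Set.mem_insert _ _)
  have hxL : x ∈ L := subset_closure (Or.inr (Set.mem_insert _ _))
  have hyL : y ∈ L := subset_closure (Or.inr (Or.inr (Set.mem_insert _ _)))
  have hDL : D ⊆ L := fun z hz => subset_closure (Or.inr (Or.inr (Or.inr hz)))
  have hxy : closure {x, y} ≤ L := by
    rw [closure_le]
    intro z hz
    rcases hz with rfl | hz
    · exact hxL
    · rw [Set.mem_singleton_iff] at hz; rw [hz]; exact hyL
  have huL : u ∈ L := hxy (huv ▸ subset_closure (Set.mem_insert _ _))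
  have hvL : v ∈ L := hxy (huv ▸ subset_closure (Or.inr rfl))
  obtain ⟨g, hg, hg0, hgx⟩ := exists_homOn_pt (p := p) hG (H := L) (N := insert c (insert y D))
    (a := x) (Set.insert_subset hcL (Set.insert_subset hyL hDL)) hxL hx (by
      rw [hL, Set.insert_comm x c])
  obtain ⟨h, hh, hh0, hhy⟩ := exists_homOn_pt (p := p) hG (H := L) (N := insert c (insert x D))
    (a := y) (Set.insert_subset hcL (Set.insert_subset hxL hDL)) hyL hy (by
      rw [hL, Set.insert_comm y c, Set.insert_comm y x])
  have hgy : g y = 0 := hg0 y (Or.inr (Set.mem_insert _ _))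
  have hhx : h x = 0 := hh0 x (Or.inr (Set.mem_insert _ _))
  have hgc : g c = 0 := hg0 c (Set.mem_insert _ _)
  have hhc : h c = 0 := hh0 c (Set.mem_insert _ _)
  -- a combination vanishing on u and v vanishes
  have van : ∀ a b : ZMod p, a * g u + b * h u = 0 → a * g v + b * h v = 0 → a = 0 ∧ b = 0 := by
    intro a b h1 h2
    have hv : ∀ z ∈ closure {u, v}, a * g z + b * h z = 0 := by
      intro z hz
      refine (hg.comb hh a b).eq_zero_of_closure (N := {u, v}) ?_ ?_ hz
      · intro w hw
        rcases hw with rfl | hw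
        · exact huL
        · rw [Set.mem_singleton_iff] at hw; rw [hw]; exact hvL
      · intro w hw
        rcases hw with rfl | hw
        · exact h1
        · rw [Set.mem_singleton_iff] at hw; rw [hw]; exact h2
    have h3 := hv x (by rw [huv]; exact subset_closure (Set.mem_insert _ _))
    have h4 := hv y (by rw [huv]; exact subset_closure (Or.inr rfl))
    rw [hgx, hhx] at h3
    rw [hgy, hhy] at h4
    constructor
    · simpa using h3
    · simpa using h4
  have hdet : h v * g u + (- g v) * h u = 0 := by
    refine (hg.comb hh (h v) (- g v)).eq_zero_of_closure (N := insert c (insert v D)) ?_ ?_ hu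
    · exact Set.insert_subset hcL (Set.insert_subset hvL hDL)
    · intro w hw
      change h v * g w + (- g v) * h w = 0
      rcases hw with rfl | rfl | hw
      · rw [hgc, hhc]; ring
      · ring
      · rw [hg0 w (Or.inr (Or.inr hw)), hh0 w (Or.inr (Or.inr hw))]; ring
  obtain ⟨h1, h2⟩ := van (h v) (- g v) hdet (by ring)
  have h2' : g v = 0 := by simpa using h2
  obtain ⟨h3, h4⟩ := van (h u) (- g u) (by ring) (by rw [h1, h2']; ring)
  have h4' : g u = 0 := by simpa using h4
  obtain ⟨h5, _⟩ := van 1 0 (by rw [h4']; ring) (by rw [h2']; ring)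
  exact one_ne_zero h5

end pgroup

end Pool.Agent.IndComp
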