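import Pool.Agent.IndComp.Basic

/-!
# The common pair lemma
-/

namespace Pool.Agent.IndComp

open Subgroup

variable {G₁ G₂ : Type*} [Group G₁] [Finite G₁] [Group G₂] [Finite G₂] {p : ℕ} [Fact p.Prime]

/-- an injective map sending a set `T` (not containing `1`) and `1` into `M` -/
theorem card_lt_of_maps (φ : G₁ ≃ G₂) (h1 : φ 1 = 1) {T : Set G₁} (hT : (1 : G₁) ∉ T) {M : Set G₂}
    (hM : (1 : G₂) ∈ M) (h : ∀ y ∈ T, φ y ∈ M) : T.ncard + 1 ≤ M.ncard := by
  rw [← Set.ncard_insert_of_notMem hT (Set.toFinite T)]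
  rw [← Set.ncard_image_of_injective (insert (1 : G₁) T) φ.injective]
  apply Set.ncard_le_ncard _ (Set.toFinite M)
  rintro _ ⟨y, hy, rfl⟩
  rcases hy with rfl | hy
  · rw [h1]; exact hM
  · exact h y hy

/-- pair generation criterion -/
theorem gen_pair (hG : IsPGroup p G₁) {Q : Subgroup G₁} {i j : G₁} (hQ : closure {i, j} = Q)
    {f g : G₁ → ZMod p} (hf : HomOn p Q f) (hg : HomOn p Q g) (hfi : f i = 1) (hfj : f j = 0)
    (hgi : g i = 0) (hgj : g j = 1) {x y : G₁} (hx : x ∈ Q) (hy : y ∈ Q)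
    (hdet : f x * g y - g x * f y ≠ 0) : closure {x, y} = Q := by
  by_contra hne
  have hlt : closure {x, y} < Q := by
    refine lt_of_le_of_ne ((closure_le _).2 ?_) hne
    intro z hz
    rcases hz with rfl | hz
    · exact hx
    · rw [Set.mem_singleton_iff] at hz; rw [hz]; exact hy
  obtain ⟨h, hh, hh0, b, hb, hhb⟩ := exists_homOn hG hlt
  have key : ∀ z ∈ Q, h z = h i * f z + h j * g z := by
    intro z hz
    refine hh.eq_of_closure (hf.comb hg (h i) (h j)) hQ ?_ hz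
    intro w hw
    change h w = h i * f w + h j * g w
    rcases hw with rfl | hw
    · rw [hfi, hgi]; ring
    · rw [Set.mem_singleton_iff] at hw; rw [hw, hfj, hgj]; ring
  have h1 := key x hx
  have h2 := key y hy
  rw [hh0 x (subset_closure (Set.mem_insert _ _))] at h1
  rw [hh0 y (subset_closure (Or.inr rfl))] at h2
  have h3 : h i = 0 := by
    have : h i * (f x * g y - g x * f y) = 0 := by linear_combination g y * (-h1) + g x * h2
    rcases mul_eq_zero.1 this with h | h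
    · exact h
    · exact absurd h hdet
  have h4 : h j = 0 := by
    have : h j * (f x * g y - g x * f y) = 0 := by linear_combination f y * h1 - f x * h2
    rcases mul_eq_zero.1 this with h | h
    · exact h
    · exact absurd h hdet
  have h5 := key b hb
  rw [h3, h4, hhb] at h5
  simp at h5

theorem common_pair (φ : G₁ ≃ G₂) (h1 : φ 1 = 1) {Q : Subgroup G₁} {Q' : Subgroup G₂}
    (hφQ : ∀ x, φ x ∈ Q' ↔ x ∈ Q) {i j : G₁} (hi : i ∈ Q) (hj : j ∈ Q)
    {f g : G₁ → ZMod p} (hf : HomOn p Q f) (hg : HomOn p Q g) (hfi : f i = 1) (hfj : f j = 0)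
    (hgi : g i = 0) (hgj : g j = 1) {f' g' : G₂ → ZMod p} (hf' : HomOn p Q' f')
    (hg' : HomOn p Q' g') (hfi' : f' (φ i) = 1) (hfj' : f' (φ j) = 0)
    (hgi' : g' (φ i) = 0) (hgj' : g' (φ j) = 1) :
    ∃ x ∈ Q, ∃ y ∈ Q, f x ≠ 0 ∧ f y ≠ 0 ∧ f x * g y - g x * f y ≠ 0 ∧
      f' (φ x) * g' (φ y) - g' (φ x) * f' (φ y) ≠ 0 := by
  classical
  have hp : p.Prime := Fact.out
  have hp2 : 2 ≤ p := hp.two_le
  have hi' : φ i ∈ Q' := (hφQ i).2 hi
  have hj' : φ j ∈ Q' := (hφQ j).2 hj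
  by_contra hcon
  push Not at hcon
  have hcardQ : Nat.card Q = Nat.card Q' :=
    Nat.card_congr (φ.subtypeEquiv fun x => (hφQ x).symm)
  set q := Nat.card Q with hq
  have hqpos : 0 < q := Nat.card_pos
  let Φ' : Set G₂ := {z | z ∈ Q' ∧ f' z = 0 ∧ g' z = 0}
  have hΦ1 : (1 : G₂) ∈ Φ' := ⟨Q'.one_mem, hf'.one, hg'.one⟩
  have hΦcard : Φ'.ncard * (p * p) ≤ q := by
    rw [hcardQ]
    exact ker_two_card_mul_le hf' hg' hi' hj' hfi' hgi' hfj' hgj'
  -- step 1
  have step1 : ∃ x0 ∈ Q, f x0 = 1 ∧ φ x0 ∉ Φ' := by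
    by_contra hc
    push Not at hc
    let T : Set G₁ := {y | y ∈ Q ∧ f y = 1}
    have hT1 : (1 : G₁) ∉ T := by
      rintro ⟨_, h⟩
      rw [hf.one] at h; exact zero_ne_one h
    have h2 := card_lt_of_maps φ h1 hT1 hΦ1 (fun y hy => hc y hy.1 hy.2)
    have h3 : q ≤ p * T.ncard := card_le_fiber_one hf hi hfi
    have h4 : p * (T.ncard + 1) ≤ p * Φ'.ncard := Nat.mul_le_mul_left _ h2
    have h5 : p * Φ'.ncard ≤ Φ'.ncard * (p * p) := by nlinarith
    nlinarith
  obtain ⟨x0, hx0, hfx0, hx0Φ⟩ := step1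
  have hx0' : φ x0 ∈ Q' := (hφQ x0).2 hx0
  -- step 2
  have hdetHom : HomOn p Q (fun z => 1 * g z + (- g x0) * f z) := hg.comb hf 1 (- g x0)
  have step2 : ∃ y0 ∈ Q, f y0 = 1 ∧ g y0 = g x0 + 1 ∧ φ y0 ∉ Φ' := by
    by_contra hc
    push Not at hc
    let T : Set G₁ := {y | y ∈ Q ∧ f y = 1 ∧ (1 * g y + (- g x0) * f y) = 1}
    have hT1 : (1 : G₁) ∉ T := by
      rintro ⟨_, h, _⟩
      rw [hf.one] at h; exact zero_ne_one h
    have h2 := card_lt_of_maps φ h1 hT1 hΦ1 (fun y hy => hc y hy.1 hy.2.1 (by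
      have := hy.2.2
      rw [hy.2.1] at this
      linear_combination this))
    have h3 : q ≤ p * p * T.ncard := card_le_fiber_two hf hdetHom hx0 hj hfx0
      (by change 1 * g x0 + (- g x0) * f x0 = 0; rw [hfx0]; ring) hfj
      (by change 1 * g j + (- g x0) * f j = 1; rw [hfj, hgj]; ring)
    have h4 : p * p * (T.ncard + 1) ≤ p * p * Φ'.ncard := Nat.mul_le_mul_left _ h2
    nlinarith [Nat.mul_le_mul hp.pos hp.pos]
  obtain ⟨y0, hy0, hfy0, hgy0, hy0Φ⟩ := step2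
  have hy0' : φ y0 ∈ Q' := (hφQ y0).2 hy0
  have hdet0 : f' (φ x0) * g' (φ y0) - g' (φ x0) * f' (φ y0) = 0 := by
    apply hcon x0 hx0 y0 hy0 (by rw [hfx0]; exact one_ne_zero) (by rw [hfy0]; exact one_ne_zero)
    rw [hfx0, hfy0, hgy0]
    have : (1 : ZMod p) * (g x0 + 1) - g x0 * 1 = 1 := by ring
    rw [this]; exact one_ne_zero
  -- step 3
  have step3 : ∀ y ∈ Q, f y = 1 → f' (φ x0) * g' (φ y) - g' (φ x0) * f' (φ y) = 0 := by
    intro y hy hfy
    by_cases hd : f x0 * g y - g x0 * f y = 0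
    · have hgy : g y = g x0 := by rw [hfx0, hfy] at hd; linear_combination hd
      have h5 : f' (φ y0) * g' (φ y) - g' (φ y0) * f' (φ y) = 0 := by
        apply hcon y0 hy0 y hy (by rw [hfy0]; exact one_ne_zero) (by rw [hfy]; exact one_ne_zero)
        rw [hfy0, hfy, hgy0, hgy]
        have : (1 : ZMod p) * g x0 - (g x0 + 1) * 1 = -1 := by ring
        rw [this]; exact neg_ne_zero.2 one_ne_zero
      by_cases hfy0' : f' (φ y0) = 0
      · have hgy0' : g' (φ y0) ≠ 0 := fun h => hy0Φ ⟨hy0', hfy0', h⟩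
        rw [hfy0'] at hdet0 h5
        have h6 : f' (φ x0) = 0 := by
          have : f' (φ x0) * g' (φ y0) = 0 := by linear_combination hdet0
          exact (mul_eq_zero.1 this).resolve_right hgy0'
        have h7 : f' (φ y) = 0 := by
          have : g' (φ y0) * f' (φ y) = 0 := by linear_combination -h5
          exact (mul_eq_zero.1 this).resolve_left hgy0'
        rw [h6, h7]; ring
      · have : f' (φ y0) * (f' (φ x0) * g' (φ y) - g' (φ x0) * f' (φ y)) = 0 := by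
          linear_combination f' (φ x0) * h5 + f' (φ y) * hdet0
        exact (mul_eq_zero.1 this).resolve_left hfy0'
    · exact hcon x0 hx0 y hy (by rw [hfx0]; exact one_ne_zero) (by rw [hfy]; exact one_ne_zero) hd
  -- conclusion
  let M : Set G₂ := {z | z ∈ Q' ∧ f' (φ x0) * g' z - g' (φ x0) * f' z = 0}
  have hM1 : (1 : G₂) ∈ M := ⟨Q'.one_mem, by rw [hf'.one, hg'.one]; ring⟩
  let T : Set G₁ := {y | y ∈ Q ∧ f y = 1}
  have hT1 : (1 : G₁) ∉ T := by
    rintro ⟨_, h⟩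
    rw [hf.one] at h; exact zero_ne_one h
  have h2 := card_lt_of_maps φ h1 hT1 hM1 (fun y hy => ⟨(hφQ y).2 hy.1, step3 y hy.1 hy.2⟩)
  have h3 : q ≤ p * T.ncard := card_le_fiber_one hf hi hfi
  have hMcard : M.ncard * p ≤ q := by
    rw [hcardQ]
    by_cases hfx : f' (φ x0) = 0
    · have hgx : g' (φ x0) ≠ 0 := fun h => hx0Φ ⟨hx0', hfx, h⟩
      have hsub : M ⊆ {z | z ∈ Q' ∧ f' z = 0} := by
        rintro z ⟨hz, hz0⟩
        refine ⟨hz, ?_⟩
        rw [hfx] at hz0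
        have : g' (φ x0) * f' z = 0 := by linear_combination -hz0
        exact (mul_eq_zero.1 this).resolve_left hgx
      calc M.ncard * p ≤ {z | z ∈ Q' ∧ f' z = 0}.ncard * p :=
            Nat.mul_le_mul_right _ (Set.ncard_le_ncard hsub (Set.toFinite _))
        _ ≤ _ := ker_card_mul_le hf' hi' hfi'
    · have hk : HomOn p Q' (fun z => 1 * g' z + (- (f' (φ x0))⁻¹ * g' (φ x0)) * f' z) :=
        hg'.comb hf' _ _
      have hsub : M ⊆ {z | z ∈ Q' ∧ 1 * g' z + (- (f' (φ x0))⁻¹ * g' (φ x0)) * f' z = 0} := by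
        rintro z ⟨hz, hz0⟩
        refine ⟨hz, ?_⟩
        have : f' (φ x0) * (1 * g' z + (- (f' (φ x0))⁻¹ * g' (φ x0)) * f' z) = 0 := by
          have h7 : f' (φ x0) * (f' (φ x0))⁻¹ = 1 := mul_inv_cancel₀ hfx
          linear_combination hz0 - (g' (φ x0) * f' z) * h7
        exact (mul_eq_zero.1 this).resolve_left hfx
      calc M.ncard * p ≤ {z | z ∈ Q' ∧
            1 * g' z + (- (f' (φ x0))⁻¹ * g' (φ x0)) * f' z = 0}.ncard * p :=
            Nat.mul_le_mul_right _ (Set.ncard_le_ncard hsub (Set.toFinite _))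
        _ ≤ _ := ker_card_mul_le hk hj' (by
            change 1 * g' (φ j) + (- (f' (φ x0))⁻¹ * g' (φ x0)) * f' (φ j) = 1
            rw [hgj', hfj']; ring)
  nlinarith

end Pool.Agent.IndComp
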