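import Pool.Agent.IndComp.Homs

/-!
# Counting fibres of homomorphisms to `ZMod p`
-/

namespace Pool.Agent.IndComp

open Subgroup

variable {G : Type*} [Group G] {p : ℕ}

theorem HomOn.mul_pow_val [NeZero p] {H : Subgroup G} {f : G → ZMod p} (hf : HomOn p H f)
    {y a : G} (hy : y ∈ H) (ha : a ∈ H) (s : ZMod p) :
    f (y * a ^ s.val) = f y + s * f a := by
  rw [hf y hy _ (H.pow_mem ha _), hf.pow ha, ZMod.natCast_val, ZMod.cast_id]

theorem card_le_fiber_one [Finite G] [NeZero p] {H : Subgroup G} {f : G → ZMod p}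
    (hf : HomOn p H f) {a : G} (ha : a ∈ H) (hfa : f a = 1) :
    Nat.card H ≤ p * {y | y ∈ H ∧ f y = 1}.ncard := by
  classical
  let T : Set G := {y | y ∈ H ∧ f y = 1}
  let Φ : H → T × ZMod p := fun y =>
    (⟨y.1 * a ^ (1 - f y).val, H.mul_mem y.2 (H.pow_mem ha _), by
      change f (y.1 * a ^ (1 - f y.1).val) = 1
      rw [hf.mul_pow_val y.2 ha, hfa]; ring⟩, f y)
  have hinj : Function.Injective Φ := by
    intro x y hxy
    have h1 : f x = f y := congrArg Prod.snd hxy
    have h2 : x.1 * a ^ (1 - f x).val = y.1 * a ^ (1 - f y).val :=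
      congrArg Subtype.val (congrArg Prod.fst hxy)
    rw [h1] at h2
    exact Subtype.ext (mul_right_cancel h2)
  have := Nat.card_le_card_of_injective Φ hinj
  rw [Nat.card_prod, Nat.card_zmod] at this
  rw [mul_comm]
  exact this

theorem card_le_fiber_two [Finite G] [NeZero p] {H : Subgroup G} {f g : G → ZMod p}
    (hf : HomOn p H f) (hg : HomOn p H g) {a b : G} (ha : a ∈ H) (hb : b ∈ H) (hfa : f a = 1)
    (hga : g a = 0) (hfb : f b = 0) (hgb : g b = 1) :
    Nat.card H ≤ p * p * {y | y ∈ H ∧ f y = 1 ∧ g y = 1}.ncard := by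
  classical
  let T : Set G := {y | y ∈ H ∧ f y = 1 ∧ g y = 1}
  have key : ∀ y ∈ H, y * a ^ (1 - f y).val * b ^ (1 - g y).val ∈ T := by
    intro y hy
    have hm := H.mul_mem hy (H.pow_mem ha (1 - f y).val)
    refine ⟨H.mul_mem hm (H.pow_mem hb _), ?_, ?_⟩
    · rw [hf.mul_pow_val hm hb, hf.mul_pow_val hy ha, hfa, hfb]; ring
    · rw [hg.mul_pow_val hm hb, hg.mul_pow_val hy ha, hga, hgb]; ring
  let Φ : H → T × ZMod p × ZMod p := fun y => (⟨_, key y.1 y.2⟩, f y, g y)
  have hinj : Function.Injective Φ := by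
    intro x y hxy
    have h0 := congrArg Prod.snd hxy
    have h1 : f x = f y := congrArg Prod.fst h0
    have h1' : g x = g y := congrArg Prod.snd h0
    have h2 : x.1 * a ^ (1 - f x.1).val * b ^ (1 - g x.1).val
      = y.1 * a ^ (1 - f y.1).val * b ^ (1 - g y.1).val :=
      congrArg Subtype.val (congrArg Prod.fst hxy)
    rw [h1, h1'] at h2
    exact Subtype.ext (mul_right_cancel (mul_right_cancel h2))
  have := Nat.card_le_card_of_injective Φ hinj
  rw [Nat.card_prod, Nat.card_prod, Nat.card_zmod] at this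
  rw [mul_comm]
  exact this

theorem ker_card_mul_le [Finite G] [NeZero p] {H : Subgroup G} {f : G → ZMod p}
    (hf : HomOn p H f) {a : G} (ha : a ∈ H) (hfa : f a = 1) :
    {y | y ∈ H ∧ f y = 0}.ncard * p ≤ Nat.card H := by
  classical
  let T : Set G := {y | y ∈ H ∧ f y = 0}
  let Φ : T × ZMod p → H := fun z => ⟨z.1.1 * a ^ z.2.val, H.mul_mem z.1.2.1 (H.pow_mem ha _)⟩
  have hval : ∀ z : T × ZMod p, f (Φ z) = z.2 := by
    intro z
    change f (z.1.1 * a ^ z.2.val) = z.2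
    rw [hf.mul_pow_val z.1.2.1 ha, hfa, z.1.2.2]; ring
  have hinj : Function.Injective Φ := by
    intro x y hxy
    have h1 : x.2 = y.2 := by rw [← hval x, ← hval y, hxy]
    have h2 : x.1.1 * a ^ x.2.val = y.1.1 * a ^ y.2.val := congrArg Subtype.val hxy
    rw [h1] at h2
    exact Prod.ext (Subtype.ext (mul_right_cancel h2)) h1
  have := Nat.card_le_card_of_injective Φ hinj
  rw [Nat.card_prod, Nat.card_zmod] at this
  exact this

theorem ker_two_card_mul_le [Finite G] [NeZero p] {H : Subgroup G} {f g : G → ZMod p}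
    (hf : HomOn p H f) (hg : HomOn p H g) {a b : G} (ha : a ∈ H) (hb : b ∈ H) (hfa : f a = 1)
    (hga : g a = 0) (hfb : f b = 0) (hgb : g b = 1) :
    {y | y ∈ H ∧ f y = 0 ∧ g y = 0}.ncard * (p * p) ≤ Nat.card H := by
  classical
  let T : Set G := {y | y ∈ H ∧ f y = 0 ∧ g y = 0}
  let Φ : T × ZMod p × ZMod p → H := fun z =>
    ⟨z.1.1 * a ^ z.2.1.val * b ^ z.2.2.val,
      H.mul_mem (H.mul_mem z.1.2.1 (H.pow_mem ha _)) (H.pow_mem hb _)⟩
  have hval : ∀ z : T × ZMod p × ZMod p, f (Φ z) = z.2.1 ∧ g (Φ z) = z.2.2 := by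
    intro z
    have hm := H.mul_mem z.1.2.1 (H.pow_mem ha z.2.1.val)
    constructor
    · change f (z.1.1 * a ^ z.2.1.val * b ^ z.2.2.val) = z.2.1
      rw [hf.mul_pow_val hm hb, hf.mul_pow_val z.1.2.1 ha, hfa, hfb, z.1.2.2.1]; ring
    · change g (z.1.1 * a ^ z.2.1.val * b ^ z.2.2.val) = z.2.2
      rw [hg.mul_pow_val hm hb, hg.mul_pow_val z.1.2.1 ha, hga, hgb, z.1.2.2.2]; ring
  have hinj : Function.Injective Φ := by
    intro x y hxy
    have h1 : x.2.1 = y.2.1 := by rw [← (hval x).1, ← (hval y).1, hxy]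
    have h1' : x.2.2 = y.2.2 := by rw [← (hval x).2, ← (hval y).2, hxy]
    have h2 : x.1.1 * a ^ x.2.1.val * b ^ x.2.2.val = y.1.1 * a ^ y.2.1.val * b ^ y.2.2.val :=
      congrArg Subtype.val hxy
    rw [h1, h1'] at h2
    exact Prod.ext (Subtype.ext (mul_right_cancel (mul_right_cancel h2))) (Prod.ext h1 h1')
  have := Nat.card_le_card_of_injective Φ hinj
  rw [Nat.card_prod, Nat.card_prod, Nat.card_zmod] at this
  exact this

end Pool.Agent.IndComp
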