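import Pool.Agent.IndComp.PGroup

/-!
# Comparability of cyclic subgroups, and finite nilpotent groups
-/

namespace Pool.Agent.IndComp

open Subgroup

section cmp

variable {G : Type*} [Group G]

/-- one of `x`, `y` is a power of the other -/
def Cmp (x y : G) : Prop := x ∈ zpowers y ∨ y ∈ zpowers x

theorem Cmp.symm {x y : G} (h : Cmp x y) : Cmp y x := Or.symm h

theorem cmp_refl (x : G) : Cmp x x := Or.inl (mem_zpowers x)

theorem indep_pair {x y : G} (hxy : x ≠ y) : Indep ({x, y} : Set G) ↔ ¬ Cmp x y := by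
  unfold Indep Cmp
  constructor
  · intro h hc
    rcases hc with hc | hc
    · apply h x (Set.mem_insert _ _)
      rw [pair_sdiff_left hxy, ← zpowers_eq_closure]; exact hc
    · apply h y (Or.inr rfl)
      rw [pair_sdiff_right hxy, ← zpowers_eq_closure]; exact hc
  · intro h a ha hac
    apply h
    rcases ha with rfl | ha
    · left
      rw [pair_sdiff_left hxy, ← zpowers_eq_closure] at hac; exact hac
    · rw [Set.mem_singleton_iff] at ha
      subst ha
      right
      rw [pair_sdiff_right hxy, ← zpowers_eq_closure] at hac; exact hac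

theorem IndepIso.cmp {G₁ G₂ : Type*} [Group G₁] [Group G₂] [Finite G₁] [Finite G₂]
    {φ : G₁ ≃ G₂} (h : IndepIso φ)
    (x y : G₁) : Cmp (φ x) (φ y) ↔ Cmp x y := by
  by_cases hxy : x = y
  · rw [hxy]; exact ⟨fun _ => cmp_refl _, fun _ => cmp_refl _⟩
  · have h1 := h {x, y}
    rw [image_pair', indep_pair hxy, indep_pair (fun h => hxy (φ.injective h))] at h1
    exact not_iff_not.1 h1

variable [Finite G]

theorem zpowers_eq_of_orderOf {x y : G} (h : x ∈ zpowers y) (ho : orderOf y ≤ orderOf x) :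
    zpowers x = zpowers y := by
  apply Subgroup.eq_of_le_of_card_ge (zpowers_le.2 h)
  rw [Nat.card_zpowers, Nat.card_zpowers]; exact ho

/-- an element of given order dividing the order of `y`, in `⟨y⟩` -/
theorem exists_mem_zpowers_orderOf {y : G} {t : ℕ} (ht : t ∣ orderOf y) :
    ∃ z ∈ zpowers y, orderOf z = t := by
  have hpos : 0 < orderOf y := orderOf_pos y
  obtain ⟨s, hs⟩ := ht
  have ht0 : t ≠ 0 := by rintro rfl; rw [zero_mul] at hs; omega
  have hs0 : s ≠ 0 := by rintro rfl; rw [mul_zero] at hs; omega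
  refine ⟨y ^ s, Subgroup.pow_mem _ (mem_zpowers y) s, ?_⟩
  rw [orderOf_pow_of_dvd hs0 ⟨t, by rw [hs, mul_comm]⟩, hs, Nat.mul_div_cancel _ (Nat.pos_of_ne_zero hs0)]

theorem orderOf_ne_one {x : G} (hx : x ≠ 1) : orderOf x ≠ 1 := fun h => hx (orderOf_eq_one_iff.1 h)

/-- elements of coprime orders, both nontrivial, are incomparable -/
theorem not_cmp_of_coprime {x y : G} (hx : x ≠ 1) (hy : y ≠ 1)
    (h : (orderOf x).Coprime (orderOf y)) : ¬ Cmp x y := by
  rintro (hc | hc)
  · have h1 := orderOf_dvd_of_mem_zpowers hc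
    exact orderOf_ne_one hx (Nat.Coprime.eq_one_of_dvd h h1)
  · have h1 := orderOf_dvd_of_mem_zpowers hc
    exact orderOf_ne_one hy (Nat.Coprime.eq_one_of_dvd h.symm h1)

/-- `x` is a power of `x * z` when `x`, `z` commute and have coprime orders -/
theorem mem_zpowers_mul {x z : G} (hc : Commute x z) (h : (orderOf x).Coprime (orderOf z)) :
    x ∈ zpowers (x * z) := by
  obtain ⟨u, hu1, hu2⟩ := Nat.chineseRemainder h 1 0
  have h1 : x ^ u = x := by
    have : x ^ u = x ^ 1 := pow_eq_pow_iff_modEq.2 hu1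
    rw [this, pow_one]
  have h2 : z ^ u = 1 := by
    rw [← pow_zero z]
    exact pow_eq_pow_iff_modEq.2 hu2
  have h3 : (x * z) ^ u = x := by rw [hc.mul_pow, h1, h2, mul_one]
  have h4 : (x * z) ^ u ∈ zpowers (x * z) := Subgroup.pow_mem _ (mem_zpowers _) u
  rwa [h3] at h4

/-- in a finite nilpotent group elements of coprime orders commute -/
theorem commute_of_coprime (hG : Group.IsNilpotent G) {x y : G}
    (h : (orderOf x).Coprime (orderOf y)) : Commute x y := by
  obtain ⟨e⟩ := ((Group.isNilpotent_of_finite_tfae (G := G)).out 0 4).mp hG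
  suffices hs : Commute (e.symm x) (e.symm y) by
    have := hs.map e
    simpa using this
  have hx : orderOf (e.symm x) = orderOf x := orderOf_injective e.symm.toMonoidHom e.symm.injective x
  have hy : orderOf (e.symm y) = orderOf y := orderOf_injective e.symm.toMonoidHom e.symm.injective y
  funext q P
  haveI : Fact (Nat.Prime q.1) := ⟨Nat.prime_of_mem_primeFactors q.2⟩
  change e.symm x q P * e.symm y q P = e.symm y q P * e.symm x q P
  have hdx : orderOf (e.symm x q P) ∣ orderOf x := by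
    rw [← hx]
    apply orderOf_dvd_of_pow_eq_one
    have := congrFun (congrFun (pow_orderOf_eq_one (e.symm x)) q) P
    exact this
  have hdy : orderOf (e.symm y q P) ∣ orderOf y := by
    rw [← hy]
    apply orderOf_dvd_of_pow_eq_one
    have := congrFun (congrFun (pow_orderOf_eq_one (e.symm y)) q) P
    exact this
  obtain ⟨a, ha⟩ := (IsPGroup.iff_orderOf.1 P.isPGroup') (e.symm x q P)
  obtain ⟨b, hb⟩ := (IsPGroup.iff_orderOf.1 P.isPGroup') (e.symm y q P)
  have hcop : (orderOf (e.symm x q P)).Coprime (orderOf (e.symm y q P)) :=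
    Nat.Coprime.coprime_dvd_left hdx (Nat.Coprime.coprime_dvd_right hdy h)
  rw [ha, hb] at hcop
  have hq : Nat.Prime q.1 := Fact.out
  rcases Nat.eq_zero_or_pos a with h0 | h0
  · rw [h0, pow_zero, orderOf_eq_one_iff] at ha
    rw [ha, one_mul, mul_one]
  · rcases Nat.eq_zero_or_pos b with h1 | h1
    · rw [h1, pow_zero, orderOf_eq_one_iff] at hb
      rw [hb, one_mul, mul_one]
    · exfalso
      have h2 : q.1 ∣ 1 := by
        rw [← hcop]
        exact Nat.dvd_gcd (dvd_pow_self _ h0.ne') (dvd_pow_self _ h1.ne')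
      exact hq.one_lt.ne' (Nat.dvd_one.1 h2)

/-- `G` is a finite nilpotent group whose order is not a prime power -/
structure Mixed (G : Type*) [Group G] [Finite G] : Prop where
  nil : Group.IsNilpotent G
  two : ∀ q : ℕ, q.Prime → ∃ l : ℕ, l.Prime ∧ l ≠ q ∧ l ∣ Nat.card G

theorem twin_aux (hG : Mixed G) {x y : G} (hx : x ≠ 1) (hxy : x ∈ zpowers y)
    (hne : zpowers x ≠ zpowers y) : ∃ z, ¬ (Cmp x z ↔ Cmp y z) := by
  have hdvd : orderOf x ∣ orderOf y := orderOf_dvd_of_mem_zpowers hxy
  have hndvd : ¬ orderOf y ∣ orderOf x := fun h =>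
    hne (zpowers_eq_of_orderOf hxy (Nat.le_of_dvd (orderOf_pos x) h))
  rw [Nat.dvd_iff_prime_pow_dvd_dvd] at hndvd
  push Not at hndvd
  obtain ⟨q, k, hq, hqk, hqk'⟩ := hndvd
  by_cases ha : orderOf x ∣ q ^ k
  · by_cases hb : ∃ l : ℕ, l.Prime ∧ l ≠ q ∧ l ∣ orderOf y
    · obtain ⟨l, hl, hlq, hly⟩ := hb
      obtain ⟨z, hz, hzo⟩ := exists_mem_zpowers_orderOf hly
      refine ⟨z, fun h => ?_⟩
      have h1 : Cmp x z := h.2 (Or.inr hz)
      refine not_cmp_of_coprime hx ?_ ?_ h1
      · rintro rfl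
        rw [orderOf_one] at hzo
        exact hl.one_lt.ne hzo
      · rw [hzo]
        apply Nat.Coprime.coprime_dvd_left ha
        exact Nat.Coprime.pow_left k ((Nat.coprime_primes hq hl).2 hlq.symm)
    · push Not at hb
      obtain ⟨l, hl, hlq, hlG⟩ := hG.two q hq
      haveI : Fact l.Prime := ⟨hl⟩
      obtain ⟨z₀, hz₀⟩ := exists_prime_orderOf_dvd_card' l hlG
      have hcx : (orderOf x).Coprime (orderOf z₀) := by
        rw [hz₀]
        apply Nat.Coprime.coprime_dvd_left ha
        exact Nat.Coprime.pow_left k ((Nat.coprime_primes hq hl).2 hlq.symm)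
      have hcomm : Commute x z₀ := commute_of_coprime hG.nil hcx
      have hord : orderOf (x * z₀) = orderOf x * l := by
        rw [hcomm.orderOf_mul_eq_mul_orderOf_of_coprime hcx, hz₀]
      have hly : ¬ l ∣ orderOf y := fun h => hb l hl hlq h
      refine ⟨x * z₀, fun h => ?_⟩
      have h1 : Cmp y (x * z₀) := h.1 (Or.inl (mem_zpowers_mul hcomm hcx))
      rcases h1 with h1 | h1
      · have h2 := orderOf_dvd_of_mem_zpowers h1
        rw [hord] at h2
        have h3 : (orderOf y).Coprime l := ((Nat.Prime.coprime_iff_not_dvd hl).2 hly).symm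
        have h4 : orderOf y ∣ orderOf x := Nat.Coprime.dvd_of_dvd_mul_right h3 h2
        exact hne (zpowers_eq_of_orderOf hxy (Nat.le_of_dvd (orderOf_pos x) h4))
      · have h2 := orderOf_dvd_of_mem_zpowers h1
        rw [hord] at h2
        exact hly ((Dvd.intro_left _ rfl).trans h2)
  · obtain ⟨z, hz, hzo⟩ := exists_mem_zpowers_orderOf hqk
    refine ⟨z, fun h => ?_⟩
    have h1 : Cmp x z := h.2 (Or.inr hz)
    rcases h1 with h1 | h1
    · have h2 := orderOf_dvd_of_mem_zpowers h1
      rw [hzo] at h2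
      exact ha h2
    · have h2 := orderOf_dvd_of_mem_zpowers h1
      rw [hzo] at h2
      exact hqk' h2

/-- twins generate the same cyclic subgroup -/
theorem twins (hG : Mixed G) {x y : G} (hx : x ≠ 1) (hy : y ≠ 1)
    (h : ∀ z, Cmp x z ↔ Cmp y z) : zpowers x = zpowers y := by
  by_contra hne
  rcases (h x).1 (cmp_refl x) with h1 | h1
  · obtain ⟨z, hz⟩ := twin_aux hG hy h1 (fun h => hne h.symm)
    exact hz (h z).symm
  · obtain ⟨z, hz⟩ := twin_aux hG hx h1 hne
    exact hz (h z)

theorem cmp_iff_of_zpowers_eq {x y : G} (h : zpowers x = zpowers y) (z : G) :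
    Cmp x z ↔ Cmp y z := by
  unfold Cmp
  rw [← zpowers_le, ← zpowers_le (g := y), h]

end cmp

end Pool.Agent.IndComp
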