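import Pool.Agent.IndComp.Cyc

/-!
# An isomorphism of independence complexes from a mixed nilpotent group preserves the inclusion of
cyclic subgroups
-/

namespace Pool.Agent.IndComp

open Subgroup

section general

variable {G : Type*} [Group G] [Finite G]

/-- `⟨a⟩` is a maximal cyclic subgroup -/
def MaxCyc (a : G) : Prop := ∀ c, a ∈ zpowers c → c ∈ zpowers a

theorem exists_maxCyc (x : G) : ∃ a : G, x ∈ zpowers a ∧ MaxCyc a := by
  obtain ⟨a, ha, hmax⟩ := Set.exists_max_image {a : G | x ∈ zpowers a} (fun a => orderOf a)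
    (Set.toFinite _) ⟨x, mem_zpowers x⟩
  refine ⟨a, ha, fun c hc => ?_⟩
  have h1 : x ∈ zpowers c := (zpowers_le.2 hc) ha
  rw [zpowers_eq_of_orderOf hc (hmax c h1)]
  exact mem_zpowers c

theorem MaxCyc.cmp {a : G} (ha : MaxCyc a) {z : G} : Cmp a z ↔ z ∈ zpowers a := by
  constructor
  · rintro (h | h)
    · exact ha z h
    · exact h
  · exact Or.inr

theorem MaxCyc.congr {a b : G} (ha : MaxCyc a) (h : zpowers b = zpowers a) : MaxCyc b := by
  intro c hc
  rw [h]
  apply ha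
  rw [← zpowers_le, ← h, zpowers_le]
  exact hc

/-- the number of generators of `⟨b⟩` -/
theorem card_gens (b : G) : {g : G | zpowers g = zpowers b}.ncard = Nat.totient (orderOf b) := by
  classical
  haveI : Fintype G := Fintype.ofFinite G
  haveI : Fintype (zpowers b) := Fintype.ofFinite _
  have h1 := IsCyclic.card_orderOf_eq_totient (α := zpowers b) (d := orderOf b)
    (by rw [← Nat.card_eq_fintype_card, Nat.card_zpowers])
  rw [← h1, ← Set.ncard_coe_finset]
  symm
  apply Set.ncard_congr (fun (x : zpowers b) _ => (x : G))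
  · intro x hx
    have hx' : orderOf x = orderOf b := by simpa using hx
    have h2 : orderOf (x : G) = orderOf b := by rw [Subgroup.orderOf_coe]; exact hx'
    exact zpowers_eq_of_orderOf x.2 h2.ge
  · intro x y _ _ hxy
    exact Subtype.ext hxy
  · intro g hg
    have hg' : zpowers g = zpowers b := hg
    have hgb : g ∈ zpowers b := by rw [← hg']; exact mem_zpowers g
    refine ⟨⟨g, hgb⟩, ?_, rfl⟩
    have h3 : orderOf g = orderOf b := by
      rw [← Nat.card_zpowers, ← Nat.card_zpowers, hg']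
    have h4 : orderOf (⟨g, hgb⟩ : zpowers b) = orderOf b := by
      rw [← Subgroup.orderOf_coe]; exact h3
    simpa using h4

end general

section iso

variable {G₁ G₂ : Type*} [Group G₁] [Finite G₁] [Group G₂] [Finite G₂] {φ : G₁ ≃ G₂}

theorem IndepIso.eq_one_iff (hφ : IndepIso φ) {x : G₁} : φ x = 1 ↔ x = 1 := by
  constructor
  · intro h; exact φ.injective (h.trans hφ.map_one.symm)
  · rintro rfl; exact hφ.map_one

/-- images in the same cyclic class come from the same cyclic class -/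
theorem IndepIso.zpowers_eq (hφ : IndepIso φ) (hG : Mixed G₁) {x y : G₁}
    (h : zpowers (φ x) = zpowers (φ y)) : zpowers x = zpowers y := by
  by_cases hx : x = 1
  · subst hx
    rw [hφ.map_one, zpowers_one_eq_bot] at h
    have hy : φ y = 1 := by
      have : φ y ∈ zpowers (φ y) := mem_zpowers _
      rw [← h] at this
      exact Subgroup.mem_bot.1 this
    rw [hφ.eq_one_iff.1 hy]
  · have hy : y ≠ 1 := by
      rintro rfl
      rw [hφ.map_one, zpowers_one_eq_bot] at h
      apply hx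
      apply hφ.eq_one_iff.1
      have : φ x ∈ zpowers (φ x) := mem_zpowers _
      rw [h] at this
      exact Subgroup.mem_bot.1 this
    refine twins hG hx hy fun z => ?_
    rw [← hφ.cmp, ← hφ.cmp]
    exact cmp_iff_of_zpowers_eq h _

theorem IndepIso.totient_le (hφ : IndepIso φ) (hG : Mixed G₁) (x : G₁) :
    Nat.totient (orderOf (φ x)) ≤ Nat.totient (orderOf x) := by
  rw [← card_gens, ← card_gens]
  have hsub : {g : G₂ | zpowers g = zpowers (φ x)} ⊆ φ '' {g : G₁ | zpowers g = zpowers x} := by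
    intro g hg
    refine ⟨φ.symm g, ?_, φ.apply_symm_apply g⟩
    apply hφ.zpowers_eq hG
    rw [φ.apply_symm_apply]; exact hg
  calc _ ≤ (φ '' {g : G₁ | zpowers g = zpowers x}).ncard := Set.ncard_le_ncard hsub (Set.toFinite _)
    _ = _ := Set.ncard_image_of_injective _ φ.injective

theorem Mixed.prime_dvd (hG : Mixed G₁) {b : G₁} (hb : MaxCyc b) {l : ℕ} (hl : l.Prime)
    (hlG : l ∣ Nat.card G₁) : l ∣ orderOf b := by
  by_contra hnd
  haveI : Fact l.Prime := ⟨hl⟩
  obtain ⟨z₀, hz₀⟩ := exists_prime_orderOf_dvd_card' l hlG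
  have hcop : (orderOf b).Coprime (orderOf z₀) := by
    rw [hz₀]; exact ((Nat.Prime.coprime_iff_not_dvd hl).2 hnd).symm
  have hcomm : Commute b z₀ := commute_of_coprime hG.nil hcop
  have h1 := hb _ (mem_zpowers_mul hcomm hcop)
  have h2 := orderOf_dvd_of_mem_zpowers h1
  rw [hcomm.orderOf_mul_eq_mul_orderOf_of_coprime hcop, hz₀] at h2
  exact hnd ((Dvd.intro_left _ rfl).trans h2)

/-- step A -/
theorem IndepIso.exists_gen (hφ : IndepIso φ) (hG : Mixed G₁) {a : G₁} (ha : MaxCyc a) :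
    ∃ b, zpowers b = zpowers a ∧ MaxCyc (φ b) := by
  classical
  obtain ⟨b, hba, hbmax⟩ := Set.exists_max_image {b : G₁ | zpowers b = zpowers a}
    (fun b => orderOf (φ b)) (Set.toFinite _) ⟨a, rfl⟩
  refine ⟨b, hba, ?_⟩
  have hb : MaxCyc b := ha.congr hba
  by_contra hnot
  unfold MaxCyc at hnot
  push Not at hnot
  obtain ⟨c', hc', hcn⟩ := hnot
  obtain ⟨c, rfl⟩ := φ.surjective c'
  -- A1
  have A1 : ∀ g, zpowers g = zpowers b → φ g ∈ zpowers (φ b) := by
    intro g hg
    have h1 : Cmp (φ g) (φ b) := (hφ.cmp g b).2 (Or.inl (by rw [← hg]; exact mem_zpowers g))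
    rcases h1 with h1 | h1
    · exact h1
    · have h2 : orderOf (φ g) ≤ orderOf (φ b) := hbmax g (hg.trans hba)
      rw [zpowers_eq_of_orderOf h1 h2]
      exact mem_zpowers _
  set n := orderOf b with hn
  have hnpos : 0 < n := orderOf_pos b
  -- the elements of prime power order
  have hpart : ∀ q : ℕ, ∃ z ∈ zpowers b, orderOf z = ordProj[q] n := fun q =>
    exists_mem_zpowers_orderOf (Nat.ordProj_dvd n q)
  choose z hz hzo using hpart
  -- two primes
  obtain ⟨q₁, hq₁, -, hq₁G⟩ := hG.two 2 Nat.prime_two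
  obtain ⟨q₂, hq₂, hq₁₂, hq₂G⟩ := hG.two q₁ hq₁
  have hq₁n : q₁ ∣ n := hG.prime_dvd hb hq₁ hq₁G
  have hq₂n : q₂ ∣ n := hG.prime_dvd hb hq₂ hq₂G
  have hother : ∀ q : ℕ, ∃ l : ℕ, l.Prime ∧ l ≠ q ∧ l ∣ n := by
    intro q
    by_cases h : q₁ = q
    · exact ⟨q₂, hq₂, by rw [← h]; exact hq₁₂, hq₂n⟩
    · exact ⟨q₁, hq₁, h, hq₁n⟩
  have hzne : ∀ q : ℕ, q.Prime → q ∣ n → z q ≠ 1 := by
    intro q hq hqn h
    have h1 := hzo q
    rw [h, orderOf_one] at h1
    have h2 : q ∣ ordProj[q] n := Nat.dvd_ordProj_of_dvd hnpos.ne' hq hqn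
    rw [← h1] at h2
    exact hq.one_lt.ne' (Nat.dvd_one.1 h2)
  have hincomp : ∀ q l : ℕ, q.Prime → l.Prime → q ∣ n → l ∣ n → q ≠ l → ¬ Cmp (z q) (z l) := by
    intro q l hq hl hqn hln hql
    refine not_cmp_of_coprime (hzne q hq hqn) (hzne l hl hln) ?_
    rw [hzo, hzo]
    exact Nat.Coprime.pow _ _ ((Nat.coprime_primes hq hl).2 hql)
  have hznb : ∀ q : ℕ, q.Prime → q ∣ n → zpowers (z q) ≠ zpowers b := by
    intro q hq hqn h
    obtain ⟨l, hl, hlq, hln⟩ := hother q
    have h1 : orderOf (z q) = n := by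
      rw [← Nat.card_zpowers, h, Nat.card_zpowers]
    rw [hzo] at h1
    rw [← h1] at hln
    exact hlq ((Nat.prime_dvd_prime_iff_eq hl hq).1 (hl.dvd_of_dvd_pow hln))
  -- A3-1
  have A31 : ∀ w ∈ zpowers b, w ≠ 1 → zpowers w ≠ zpowers b →
      ∃ q : ℕ, q.Prime ∧ q ∣ n ∧ ¬ Cmp w (z q) := by
    intro w hw hw1 hwb
    have hndvd : ¬ n ∣ orderOf w := fun h =>
      hwb (zpowers_eq_of_orderOf hw (Nat.le_of_dvd (orderOf_pos w) h))
    have : ∃ q : ℕ, q.Prime ∧ ¬ ordProj[q] n ∣ orderOf w := by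
      by_contra hc
      push Not at hc
      apply hndvd
      rw [Nat.dvd_iff_prime_pow_dvd_dvd]
      intro q k hq hqk
      refine dvd_trans ?_ (hc q hq)
      exact pow_dvd_pow q ((hq.pow_dvd_iff_le_factorization hnpos.ne').1 hqk)
    obtain ⟨q, hq, hqn⟩ := this
    have hqdn : q ∣ n := by
      by_contra h
      apply hqn
      rw [Nat.factorization_eq_zero_of_not_dvd h, pow_zero]
      exact one_dvd _
    by_cases hd : orderOf w ∣ ordProj[q] n
    · obtain ⟨l, hl, hlq, hln⟩ := hother q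
      refine ⟨l, hl, hln, not_cmp_of_coprime hw1 (hzne l hl hln) ?_⟩
      rw [hzo]
      apply Nat.Coprime.coprime_dvd_left hd
      exact Nat.Coprime.pow _ _ ((Nat.coprime_primes hq hl).2 hlq.symm)
    · refine ⟨q, hq, hqdn, ?_⟩
      rintro (h | h)
      · have h1 := orderOf_dvd_of_mem_zpowers h
        rw [hzo] at h1
        exact hd h1
      · have h1 := orderOf_dvd_of_mem_zpowers h
        rw [hzo] at h1
        exact hqn h1
  -- crossing comparability
  have hcross : ∀ w v, φ w ∈ zpowers (φ b) → v ∈ zpowers b → φ v ∉ zpowers (φ b) → Cmp w v := by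
    intro w v hw hv hvn
    have h1 : Cmp (φ b) (φ v) := (hφ.cmp b v).2 (Or.inr hv)
    rcases h1 with h1 | h1
    · rw [← hφ.cmp]
      exact Or.inl ((zpowers_le.2 h1) hw)
    · exact absurd h1 hvn
  have hcb : c ∈ zpowers b := by
    have : Cmp b c := (hφ.cmp b c).1 (Or.inl hc')
    exact hb.cmp.1 this
  have hc1 : c ≠ 1 := by
    rintro rfl
    rw [hφ.map_one] at hcn
    exact hcn (one_mem _)
  have hcgen : zpowers c ≠ zpowers b := fun h => hcn (A1 c h)
  have hzout : ∀ q : ℕ, q.Prime → q ∣ n → φ (z q) ∉ zpowers (φ b) := by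
    obtain ⟨q₀, hq₀, hq₀n, hcq₀⟩ := A31 c hcb hc1 hcgen
    have h0 : φ (z q₀) ∉ zpowers (φ b) := by
      intro h
      exact hcq₀ (hcross (z q₀) c h hcb hcn).symm
    intro q hq hqn h
    by_cases hqq : q = q₀
    · rw [hqq] at h; exact h0 h
    · exact hincomp q q₀ hq hq₀ hqn hq₀n hqq (hcross (z q) (z q₀) h (hz q₀) h0)
  have A3 : ∀ w ∈ zpowers b, w ≠ 1 → zpowers w ≠ zpowers b → φ w ∉ zpowers (φ b) := by
    intro w hw hw1 hwb h
    obtain ⟨q, hq, hqn, hc⟩ := A31 w hw hw1 hwb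
    exact hc (hcross w (z q) h (hz q) (hzout q hq hqn))
  -- A4
  set r := orderOf (φ b) with hr
  have hgens : ∀ w, φ w ∈ zpowers (φ b) → w ≠ 1 → zpowers w = zpowers b := by
    intro w hw hw1
    by_contra h
    have : w ∈ zpowers b := hb.cmp.1 ((hφ.cmp b w).1 (Or.inr hw))
    exact A3 w this hw1 h hw
  have hb1 : b ≠ 1 := by
    intro h
    have : n = 1 := by rw [hn, h, orderOf_one]
    rw [this] at hq₁n
    exact hq₁.one_lt.ne' (Nat.dvd_one.1 hq₁n)
  have hr1 : r ≠ 1 := orderOf_ne_one (fun h => hb1 (hφ.eq_one_iff.1 h))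
  have hcount : Nat.totient n + 1 = r := by
    rw [hn, ← card_gens, hr, ← Nat.card_zpowers]
    have h1 : φ '' (insert 1 {g : G₁ | zpowers g = zpowers b}) = (zpowers (φ b) : Set G₂) := by
      ext w
      constructor
      · rintro ⟨g, hg, rfl⟩
        rcases hg with rfl | hg
        · rw [hφ.map_one]; exact one_mem _
        · exact A1 g hg
      · intro hw
        obtain ⟨v, rfl⟩ := φ.surjective w
        refine ⟨v, ?_, rfl⟩
        by_cases hv : v = 1
        · exact Or.inl hv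
        · exact Or.inr (hgens v hw hv)
    have h2 : (1 : G₁) ∉ {g : G₁ | zpowers g = zpowers b} := by
      intro h
      have h' : zpowers (1 : G₁) = zpowers b := h
      rw [zpowers_one_eq_bot] at h'
      have : b ∈ zpowers b := mem_zpowers b
      rw [← h'] at this
      exact hb1 (Subgroup.mem_bot.1 this)
    have h3 : (zpowers (φ b) : Set G₂).ncard = Nat.card (zpowers (φ b)) := rfl
    rw [← h3, ← h1, Set.ncard_image_of_injective _ φ.injective,
      Set.ncard_insert_of_notMem h2 (Set.toFinite _)]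
  -- r is a prime power
  have hrpow : ∃ p₀ s : ℕ, p₀.Prime ∧ 0 < s ∧ r = p₀ ^ s := by
    obtain ⟨p₀, hp₀, hp₀r⟩ := Nat.exists_prime_and_dvd hr1
    have hrpos : r ≠ 0 := (orderOf_pos (φ b)).ne'
    have h1 : ∀ l : ℕ, l.Prime → l ∣ r → l = p₀ := by
      intro l hl hlr
      by_contra hne
      obtain ⟨u, hu, huo⟩ := exists_mem_zpowers_orderOf hp₀r
      obtain ⟨v, hv, hvo⟩ := exists_mem_zpowers_orderOf hlr
      obtain ⟨u, rfl⟩ := φ.surjective u
      obtain ⟨v, rfl⟩ := φ.surjective v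
      have hu1 : φ u ≠ 1 := by
        intro h; rw [h, orderOf_one] at huo; exact hp₀.one_lt.ne huo
      have hv1 : φ v ≠ 1 := by
        intro h; rw [h, orderOf_one] at hvo; exact hl.one_lt.ne hvo
      have h2 := hgens u hu (fun h => hu1 (hφ.eq_one_iff.2 h))
      have h3 := hgens v hv (fun h => hv1 (hφ.eq_one_iff.2 h))
      have h4 : Cmp u v := Or.inl (by rw [h3, ← h2]; exact mem_zpowers u)
      refine not_cmp_of_coprime hu1 hv1 ?_ ((hφ.cmp u v).2 h4)
      rw [huo, hvo]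
      exact (Nat.coprime_primes hp₀ hl).2 (fun h => hne h.symm)
    refine ⟨p₀, r.factorization p₀, hp₀, hp₀.factorization_pos_of_dvd hrpos hp₀r, ?_⟩
    exact Nat.eq_prime_pow_of_unique_prime_dvd hrpos (fun {d} hd hdr => h1 d hd hdr) |>.trans (by
      congr 1
      have h5 := Nat.eq_prime_pow_of_unique_prime_dvd hrpos (fun {d} hd hdr => h1 d hd hdr)
      conv_rhs => rw [h5]
      rw [hp₀.factorization_pow]
      simp)
  obtain ⟨p₀, s, hp₀, hs, hrs⟩ := hrpow
  have htot : r ≤ 2 * Nat.totient r := by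
    rw [hrs, Nat.totient_prime_pow hp₀ hs]
    obtain ⟨t, rfl⟩ : ∃ t, s = t + 1 := ⟨s - 1, by omega⟩
    rw [Nat.add_sub_cancel, pow_succ]
    have h1 := hp₀.two_le
    have h2 : p₀ ≤ 2 * (p₀ - 1) := by omega
    calc p₀ ^ t * p₀ ≤ p₀ ^ t * (2 * (p₀ - 1)) := Nat.mul_le_mul_left _ h2
      _ = 2 * (p₀ ^ t * (p₀ - 1)) := by ring
  have hbound : ∀ q : ℕ, q.Prime → q ∣ n → r ≤ 2 * (q - 1) := by
    intro q hq hqn
    obtain ⟨w, hw, hwo⟩ := exists_mem_zpowers_orderOf hqn
    have hw1 : w ≠ 1 := by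
      rintro rfl; rw [orderOf_one] at hwo; exact hq.one_lt.ne hwo
    have hwb : zpowers w ≠ zpowers b := by
      intro h
      obtain ⟨l, hl, hlq, hln⟩ := hother q
      have h1 : orderOf w = n := by rw [← Nat.card_zpowers, h, Nat.card_zpowers]
      rw [← h1, hwo] at hln
      exact hlq ((Nat.prime_dvd_prime_iff_eq hl hq).1 hln)
    have hout := A3 w hw hw1 hwb
    have hin : φ b ∈ zpowers (φ w) := by
      have h1 : Cmp (φ b) (φ w) := (hφ.cmp b w).2 (Or.inr hw)
      exact h1.resolve_right hout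
    have h2 : Nat.totient r ≤ Nat.totient (orderOf (φ w)) :=
      Nat.le_of_dvd (Nat.totient_pos.2 (orderOf_pos _))
        (Nat.totient_dvd_of_dvd (orderOf_dvd_of_mem_zpowers hin))
    have h3 := hφ.totient_le hG w
    rw [hwo, Nat.totient_prime hq] at h3
    omega
  have hB1 := hbound q₁ hq₁ hq₁n
  have hB2 := hbound q₂ hq₂ hq₂n
  have hcop : q₁.Coprime q₂ := (Nat.coprime_primes hq₁ hq₂).2 hq₁₂.symm
  have hdv : q₁ * q₂ ∣ n := Nat.Coprime.mul_dvd_of_dvd_of_dvd hcop hq₁n hq₂n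
  have htn : (q₁ - 1) * (q₂ - 1) ≤ Nat.totient n := by
    rw [← Nat.totient_prime hq₁, ← Nat.totient_prime hq₂, ← Nat.totient_mul hcop]
    exact Nat.le_of_dvd (Nat.totient_pos.2 hnpos) (Nat.totient_dvd_of_dvd hdv)
  have h2₁ := hq₁.two_le
  have h2₂ := hq₂.two_le
  obtain ⟨u, hu⟩ : ∃ u, q₁ = u + 2 := ⟨q₁ - 2, by omega⟩
  obtain ⟨v, hv⟩ : ∃ v, q₂ = v + 2 := ⟨q₂ - 2, by omega⟩
  have huv : u ≠ v := by rintro rfl; exact hq₁₂ (by rw [hu, hv])
  rw [hu] at hB1 htn
  rw [hv] at hB2 htn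
  have e1 : u + 2 - 1 = u + 1 := by omega
  have e2 : v + 2 - 1 = v + 1 := by omega
  rw [e1] at hB1 htn
  rw [e2] at hB2 htn
  rcases Nat.lt_or_gt_of_ne huv with h | h
  · nlinarith
  · nlinarith

/-- step A, consequence: a generator of a maximal cyclic subgroup with the correct image -/
theorem IndepIso.exists_gen' (hφ : IndepIso φ) (hG : Mixed G₁) {a : G₁} (ha : MaxCyc a) :
    ∃ b, zpowers b = zpowers a ∧ MaxCyc b ∧ (∀ z, φ z ∈ zpowers (φ b) ↔ z ∈ zpowers b) ∧
      orderOf (φ b) = orderOf b := by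
  obtain ⟨b, hba, hφb⟩ := hφ.exists_gen hG ha
  have hb : MaxCyc b := ha.congr hba
  have h1 : ∀ z, φ z ∈ zpowers (φ b) ↔ z ∈ zpowers b := by
    intro z
    rw [← hφb.cmp, ← hb.cmp, hφ.cmp]
  refine ⟨b, hba, hb, h1, ?_⟩
  rw [← Nat.card_zpowers, ← Nat.card_zpowers]
  exact (Nat.card_congr (φ.subtypeEquiv fun z => (h1 z).symm)).symm

/-- step B -/
theorem IndepIso.zpowers_eq_iff (hφ : IndepIso φ) (hG : Mixed G₁) {x y : G₁} :
    zpowers (φ x) = zpowers (φ y) ↔ zpowers x = zpowers y := by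
  refine ⟨hφ.zpowers_eq hG, fun hxy => ?_⟩
  obtain ⟨a, hxa, ha⟩ := exists_maxCyc x
  obtain ⟨b, hba, hb, himg, hord⟩ := hφ.exists_gen' hG ha
  have hxb : x ∈ zpowers b := by rw [hba]; exact hxa
  have hyb : y ∈ zpowers b := by
    have : y ∈ zpowers x := by rw [hxy]; exact mem_zpowers y
    exact (zpowers_le.2 hxb) this
  -- cyclic subgroups of ⟨b⟩ and of ⟨φ b⟩
  let S : Set (Subgroup G₁) := {K | ∃ z ∈ zpowers b, zpowers z = K}
  let S' : Set (Subgroup G₂) := {K | ∃ z ∈ zpowers (φ b), zpowers z = K}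
  have hcyc : Nat.card (zpowers b) = Nat.card (zpowers (φ b)) := by
    rw [Nat.card_zpowers, Nat.card_zpowers, hord]
  let e : zpowers b ≃* zpowers (φ b) := mulEquivOfCyclicCardEq hcyc
  have hSS : S.ncard = S'.ncard := by
    -- both are in bijection through `e`
    have key : ∀ z w : zpowers b, zpowers (z : G₁) = zpowers (w : G₁) ↔
        zpowers ((e z : zpowers (φ b)) : G₂) = zpowers ((e w : zpowers (φ b)) : G₂) := by
      intro z w
      have h1 : zpowers (z : G₁) = (zpowers z).map (zpowers b).subtype := by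
        rw [MonoidHom.map_zpowers]; rfl
      have h2 : zpowers (w : G₁) = (zpowers w).map (zpowers b).subtype := by
        rw [MonoidHom.map_zpowers]; rfl
      have h3 : zpowers ((e z : zpowers (φ b)) : G₂) =
          (zpowers z).map ((zpowers (φ b)).subtype.comp e.toMonoidHom) := by
        rw [MonoidHom.map_zpowers]; rfl
      have h4 : zpowers ((e w : zpowers (φ b)) : G₂) =
          (zpowers w).map ((zpowers (φ b)).subtype.comp e.toMonoidHom) := by
        rw [MonoidHom.map_zpowers]; rfl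
      rw [h1, h2, h3, h4]
      have i1 : Function.Injective (zpowers b).subtype := Subtype.val_injective
      have i2 : Function.Injective ((zpowers (φ b)).subtype.comp e.toMonoidHom) :=
        Subtype.val_injective.comp e.injective
      constructor
      · intro h
        rw [Subgroup.map_injective i1 h]
      · intro h
        rw [Subgroup.map_injective i2 h]
    classical
    have hch : ∀ K : Subgroup G₁, ∃ z : zpowers b, K ∈ S → zpowers (z : G₁) = K := by
      intro K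
      by_cases hK : K ∈ S
      · obtain ⟨z, hz, hzK⟩ := hK
        exact ⟨⟨z, hz⟩, fun _ => hzK⟩
      · exact ⟨1, fun h => absurd h hK⟩
    choose f hf using hch
    apply Set.ncard_congr (fun (K : Subgroup G₁) (_ : K ∈ S) =>
      zpowers ((e (f K) : zpowers (φ b)) : G₂))
    · intro K hK
      exact ⟨_, (e (f K)).2, rfl⟩
    · intro K L hK hL h
      have := (key _ _).2 h
      rw [hf K hK, hf L hL] at this
      exact this
    · rintro K ⟨z, hz, rfl⟩
      let w : zpowers b := e.symm ⟨z, hz⟩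
      have hwS : zpowers (w : G₁) ∈ S := ⟨w, w.2, rfl⟩
      refine ⟨zpowers (w : G₁), hwS, ?_⟩
      have h1 := (key (f (zpowers (w : G₁))) w).1 (hf _ hwS)
      rw [h1]
      change zpowers ((e (e.symm ⟨z, hz⟩) : zpowers (φ b)) : G₂) = zpowers z
      rw [e.apply_symm_apply]
  -- the surjection S' → S
  classical
  have hch : ∀ K : Subgroup G₂, ∃ z : G₁, K ∈ S' → z ∈ zpowers b ∧ zpowers (φ z) = K := by
    intro K
    by_cases hK : K ∈ S'
    · obtain ⟨z, hz, hzK⟩ := hK
      obtain ⟨w, rfl⟩ := φ.surjective z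
      exact ⟨w, fun _ => ⟨(himg w).1 hz, hzK⟩⟩
    · exact ⟨1, fun h => absurd h hK⟩
  choose f hf using hch
  have hmaps : ∀ K ∈ S', zpowers (f K) ∈ S := fun K hK => ⟨f K, (hf K hK).1, rfl⟩
  have hsurj : ∀ L ∈ S, ∃ K ∈ S', zpowers (f K) = L := by
    rintro L ⟨z, hz, rfl⟩
    have hK : zpowers (φ z) ∈ S' := ⟨φ z, (himg z).2 hz, rfl⟩
    exact ⟨zpowers (φ z), hK, hφ.zpowers_eq hG (hf _ hK).2⟩
  have himage : (fun K => zpowers (f K)) '' S' = S := by
    ext L
    constructor
    · rintro ⟨K, hK, rfl⟩; exact hmaps K hK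
    · intro hL
      obtain ⟨K, hK, h⟩ := hsurj L hL
      exact ⟨K, hK, h⟩
  have hinj : Set.InjOn (fun K => zpowers (f K)) S' := by
    apply Set.injOn_of_ncard_image_eq _ (Set.toFinite _)
    rw [himage, hSS]
  have hKx : zpowers (φ x) ∈ S' := ⟨φ x, (himg x).2 hxb, rfl⟩
  have hKy : zpowers (φ y) ∈ S' := ⟨φ y, (himg y).2 hyb, rfl⟩
  apply hinj hKx hKy
  change zpowers (f (zpowers (φ x))) = zpowers (f (zpowers (φ y)))
  rw [hφ.zpowers_eq hG (hf _ hKx).2, hφ.zpowers_eq hG (hf _ hKy).2, hxy]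

theorem IndepIso.totient_eq (hφ : IndepIso φ) (hG : Mixed G₁) (x : G₁) :
    Nat.totient (orderOf (φ x)) = Nat.totient (orderOf x) := by
  rw [← card_gens, ← card_gens]
  have h : φ '' {g : G₁ | zpowers g = zpowers x} = {g : G₂ | zpowers g = zpowers (φ x)} := by
    ext w
    constructor
    · rintro ⟨g, hg, rfl⟩
      exact (hφ.zpowers_eq_iff hG).2 hg
    · intro hw
      obtain ⟨v, rfl⟩ := φ.surjective w
      exact ⟨v, (hφ.zpowers_eq_iff hG).1 hw, rfl⟩
  rw [← h, Set.ncard_image_of_injective _ φ.injective]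

theorem totient_coincidence {a b : ℕ} (h : a ∣ b) (hne : a ≠ b) (ht : a.totient = b.totient)
    (ha : 0 < a) : b = 2 * a ∧ Odd a := by
  rcases Nat.eq_or_eq_of_totient_eq_totient h ht with h1 | h1
  · exact absurd h1 hne
  · refine ⟨h1.symm, ?_⟩
    by_contra hodd
    rw [Nat.not_odd_iff_even] at hodd
    rw [← h1, Nat.totient_two_mul_of_even hodd] at ht
    have := Nat.totient_pos.2 ha
    omega

/-- step C -/
theorem IndepIso.mem_zpowers_of (hφ : IndepIso φ) (hG : Mixed G₁) {x y : G₁}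
    (hxy : x ∈ zpowers y) : φ x ∈ zpowers (φ y) := by
  by_contra hnot
  have hyx : φ y ∈ zpowers (φ x) := ((hφ.cmp x y).2 (Or.inl hxy)).resolve_left hnot
  have hx1 : x ≠ 1 := by
    rintro rfl
    rw [hφ.map_one] at hnot
    exact hnot (one_mem _)
  have hy1 : y ≠ 1 := by
    rintro rfl
    rw [zpowers_one_eq_bot] at hxy
    exact hx1 (Subgroup.mem_bot.1 hxy)
  have d1 : orderOf x ∣ orderOf y := orderOf_dvd_of_mem_zpowers hxy
  have d2 : orderOf (φ y) ∣ orderOf (φ x) := orderOf_dvd_of_mem_zpowers hyx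
  have l1 : Nat.totient (orderOf x) ≤ Nat.totient (orderOf y) :=
    Nat.le_of_dvd (Nat.totient_pos.2 (orderOf_pos _)) (Nat.totient_dvd_of_dvd d1)
  have l2 : Nat.totient (orderOf (φ y)) ≤ Nat.totient (orderOf (φ x)) :=
    Nat.le_of_dvd (Nat.totient_pos.2 (orderOf_pos _)) (Nat.totient_dvd_of_dvd d2)
  rw [hφ.totient_eq hG, hφ.totient_eq hG] at l2
  have heq : Nat.totient (orderOf x) = Nat.totient (orderOf y) := le_antisymm l1 l2
  have hne1 : orderOf x ≠ orderOf y := by
    intro h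
    have h1 := zpowers_eq_of_orderOf hxy h.ge
    have h2 := (hφ.zpowers_eq_iff hG).2 h1
    apply hnot
    rw [← h2]; exact mem_zpowers _
  have hne2 : orderOf (φ y) ≠ orderOf (φ x) := by
    intro h
    have h2 := zpowers_eq_of_orderOf hyx h.ge
    apply hnot
    rw [h2]; exact mem_zpowers _
  obtain ⟨c1, c2⟩ := totient_coincidence d1 hne1 heq (orderOf_pos _)
  obtain ⟨c3, c4⟩ := totient_coincidence d2 hne2
    (by rw [hφ.totient_eq hG, hφ.totient_eq hG, heq]) (orderOf_pos _)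
  have h2y : 2 ∣ orderOf y := by rw [c1]; exact dvd_mul_right _ _
  obtain ⟨t, ht, hto⟩ := exists_mem_zpowers_orderOf h2y
  have ht1 : t ≠ 1 := by
    rintro rfl; rw [orderOf_one] at hto; omega
  have hntx : ¬ Cmp t x := by
    apply not_cmp_of_coprime ht1 hx1
    rw [hto]
    exact (Nat.coprime_two_left).2 c2
  have hty : Cmp (φ t) (φ y) := (hφ.cmp t y).2 (Or.inl ht)
  have hntx' : ¬ Cmp (φ t) (φ x) := fun h => hntx ((hφ.cmp t x).1 h)
  rcases hty with h | h
  · exact hntx' (Or.inl ((zpowers_le.2 hyx) h))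
  · have h3 := orderOf_dvd_of_mem_zpowers h
    have h4 := hφ.totient_eq hG t
    rw [hto, Nat.totient_two, Nat.totient_eq_one_iff] at h4
    have h5 : orderOf (φ y) ≠ 1 := orderOf_ne_one (fun h => hy1 (hφ.eq_one_iff.1 h))
    rcases h4 with h4 | h4
    · rw [h4] at h3
      exact h5 (Nat.dvd_one.1 h3)
    · rw [h4] at h3
      rcases (Nat.dvd_prime Nat.prime_two).1 h3 with h6 | h6
      · exact h5 h6
      · rw [h6] at c4
        exact (by decide : ¬ Odd 2) c4

theorem IndepIso.mem_zpowers_iff (hφ : IndepIso φ) (hG : Mixed G₁) {x y : G₁} :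
    φ x ∈ zpowers (φ y) ↔ x ∈ zpowers y := by
  constructor
  · intro h
    rcases (hφ.cmp x y).1 (Or.inl h) with h1 | h1
    · exact h1
    · have h2 := hφ.mem_zpowers_of hG h1
      have h3 : zpowers (φ x) = zpowers (φ y) :=
        le_antisymm (zpowers_le.2 h) (zpowers_le.2 h2)
      rw [← (hφ.zpowers_eq_iff hG).1 h3]
      exact mem_zpowers x
  · exact hφ.mem_zpowers_of hG

theorem IndepIso.orderOf_eq (hφ : IndepIso φ) (hG : Mixed G₁) (x : G₁) :
    orderOf (φ x) = orderOf x := by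
  rw [← Nat.card_zpowers, ← Nat.card_zpowers]
  exact (Nat.card_congr (φ.subtypeEquiv fun z => (hφ.mem_zpowers_iff hG).symm)).symm

end iso

end Pool.Agent.IndComp
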