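import Mathlib

/-!
# Independence complex and strong independence complex of a finite group: definitions
-/

namespace Pool.Agent.IndComp

/-- `A` is independent: no `a` in `A` lies in the subgroup generated by `A` minus `a`. -/
def Indep {G : Type*} [Group G] (A : Set G) : Prop :=
  ∀ a ∈ A, a ∉ Subgroup.closure (A \ {a})

/-- `d H` is the minimum size of a finite generating set of the subgroup `H`. -/
noncomputable def d {G : Type*} [Group G] (H : Subgroup G) : ℕ :=
  sInf {n | ∃ S : Set G, S.Finite ∧ S.ncard = n ∧ Subgroup.closure S = H}

/-- `A` is strongly independent: every subgroup `H` containing `A` has `d H ≥ |A|`. -/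
def StrongIndep {G : Type*} [Group G] (A : Set G) : Prop :=
  ∀ H : Subgroup G, A ⊆ H → A.ncard ≤ d H

end Pool.Agent.IndComp
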