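import Pool.Agent.IndComp.Defs

/-!
# Homomorphisms to `ZMod p` on subgroups of a finite `p`-group
-/

namespace Pool.Agent.IndComp

open Subgroup

variable {G : Type*} [Group G] {p : ℕ}

/-- `f` is additive on the subgroup `H`. -/
def HomOn (p : ℕ) (H : Subgroup G) (f : G → ZMod p) : Prop :=
  ∀ x ∈ H, ∀ y ∈ H, f (x * y) = f x + f y

theorem HomOn.one {H : Subgroup G} {f : G → ZMod p} (hf : HomOn p H f) : f 1 = 0 := by
  have h := hf 1 H.one_mem 1 H.one_mem
  simpa using h

theorem HomOn.inv {H : Subgroup G} {f : G → ZMod p} (hf : HomOn p H f) {x : G} (hx : x ∈ H) :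
    f x⁻¹ = - f x := by
  have h := hf x hx x⁻¹ (H.inv_mem hx)
  rw [mul_inv_cancel, hf.one] at h
  exact (neg_eq_of_add_eq_zero_right h.symm).symm

theorem HomOn.pow {H : Subgroup G} {f : G → ZMod p} (hf : HomOn p H f) {x : G} (hx : x ∈ H)
    (n : ℕ) : f (x ^ n) = n * f x := by
  induction n with
  | zero => simp [hf.one]
  | succ n ih => rw [pow_succ, hf _ (H.pow_mem hx n) _ hx, ih]; push_cast; ring

theorem HomOn.mono {H K : Subgroup G} {f : G → ZMod p} (hf : HomOn p H f) (h : K ≤ H) :
    HomOn p K f := fun x hx y hy => hf x (h hx) y (h hy)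

theorem HomOn.add {H : Subgroup G} {f g : G → ZMod p} (hf : HomOn p H f) (hg : HomOn p H g) :
    HomOn p H (fun x => f x + g x) := by
  intro x hx y hy
  simp only [hf x hx y hy, hg x hx y hy]; ring

theorem HomOn.smul {H : Subgroup G} {f : G → ZMod p} (hf : HomOn p H f) (c : ZMod p) :
    HomOn p H (fun x => c * f x) := by
  intro x hx y hy
  simp only [hf x hx y hy]; ring

theorem HomOn.comb {H : Subgroup G} {f g : G → ZMod p} (hf : HomOn p H f) (hg : HomOn p H g)
    (a b : ZMod p) : HomOn p H (fun x => a * f x + b * g x) := (hf.smul a).add (hg.smul b)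

theorem HomOn.sum {H : Subgroup G} {ι : Type*} (s : Finset ι) {f : ι → G → ZMod p}
    (hf : ∀ i ∈ s, HomOn p H (f i)) (c : ι → ZMod p) :
    HomOn p H (fun x => ∑ i ∈ s, c i * f i x) := by
  intro x hx y hy
  simp only
  rw [← Finset.sum_add_distrib]
  refine Finset.sum_congr rfl fun i hi => ?_
  rw [hf i hi x hx y hy]; ring

/-- the kernel of `f` in `H` -/
def HomOn.ker {H : Subgroup G} {f : G → ZMod p} (hf : HomOn p H f) : Subgroup G where
  carrier := {x | x ∈ H ∧ f x = 0}
  mul_mem' := by
    rintro x y ⟨hx, hx0⟩ ⟨hy, hy0⟩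
    exact ⟨H.mul_mem hx hy, by rw [hf x hx y hy, hx0, hy0, add_zero]⟩
  one_mem' := ⟨H.one_mem, hf.one⟩
  inv_mem' := by
    rintro x ⟨hx, hx0⟩
    exact ⟨H.inv_mem hx, by rw [hf.inv hx, hx0, neg_zero]⟩

theorem HomOn.mem_ker {H : Subgroup G} {f : G → ZMod p} (hf : HomOn p H f) {x : G} :
    x ∈ hf.ker ↔ x ∈ H ∧ f x = 0 := Iff.rfl

/-- a homomorphism vanishing on a set vanishes on the closure -/
theorem HomOn.eq_zero_of_closure {H : Subgroup G} {f : G → ZMod p} (hf : HomOn p H f) {N : Set G}
    (hN : N ⊆ H) (h0 : ∀ x ∈ N, f x = 0) {x : G} (hx : x ∈ closure N) : f x = 0 := by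
  have : closure N ≤ hf.ker := (closure_le _).2 fun y hy => ⟨hN hy, h0 y hy⟩
  exact (this hx).2

/-- separation: in a finite `p`-group a proper subgroup `K` of `H` is killed by a nonzero
homomorphism `H → ZMod p`. -/
theorem exists_homOn [Finite G] [Fact p.Prime] (hG : IsPGroup p G) {K H : Subgroup G} (hKH : K < H) :
    ∃ f : G → ZMod p, HomOn p H f ∧ (∀ x ∈ K, f x = 0) ∧ ∃ a ∈ H, f a = 1 := by
  classical
  have hH : IsPGroup p H := hG.to_subgroup H
  obtain ⟨N, hN⟩ := hH.exists_card_eq
  have hKp : IsPGroup p (K.subgroupOf H) := hH.to_subgroup _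
  obtain ⟨n, hn⟩ := hKp.exists_card_eq
  have hKne : K.subgroupOf H ≠ ⊤ := by
    intro h
    rw [subgroupOf_eq_top] at h
    exact absurd h (not_le_of_gt hKH)
  have hlt : n < N := by
    by_contra hc
    push Not at hc
    have h1 : Nat.card H ≤ Nat.card (K.subgroupOf H) := by
      rw [hN, hn]; exact Nat.pow_le_pow_right (Fact.out : p.Prime).pos hc
    apply hKne
    exact Subgroup.eq_top_of_le_card _ h1
  obtain ⟨M, hM, hKM⟩ := Sylow.exists_subgroup_card_pow_prime_le (G := H) p (n := n) (m := N - 1)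
    (by rw [hN]; exact pow_dvd_pow _ (Nat.sub_le _ _)) (K.subgroupOf H) hn (by omega)
  have hidx : M.index = p := by
    have h1 := M.card_mul_index
    rw [hM, hN] at h1
    have h2 : p ^ N = p ^ (N - 1) * p := by
      rw [← pow_succ]; congr 1; omega
    rw [h2] at h1
    exact Nat.eq_of_mul_eq_mul_left (pow_pos (Fact.out : p.Prime).pos _) h1
  have hpN : (Nat.card H).minFac = p := by
    rw [hN]
    exact (Fact.out : p.Prime).pow_minFac (by omega)
  have hnorm : M.Normal := Subgroup.normal_of_index_eq_minFac_card (by rw [hidx, hpN])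
  have hcard : Nat.card (H ⧸ M) = p := hidx
  have hcard2 : Nat.card (Multiplicative (ZMod p)) = p := by
    simp
  let e : (H ⧸ M) ≃* Multiplicative (ZMod p) := mulEquivOfPrimeCardEq hcard hcard2
  let F : H →* Multiplicative (ZMod p) := e.toMonoidHom.comp (QuotientGroup.mk' M)
  have hFsurj : Function.Surjective F := e.surjective.comp (QuotientGroup.mk'_surjective M)
  refine ⟨fun x => if hx : x ∈ H then (F ⟨x, hx⟩).toAdd else 0, ?_, ?_, ?_⟩
  · intro x hx y hy
    have hxy := H.mul_mem hx hy
    simp only [hx, hy, hxy, dif_pos]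
    have : (⟨x * y, hxy⟩ : H) = ⟨x, hx⟩ * ⟨y, hy⟩ := rfl
    rw [this, map_mul, toAdd_mul]
  · intro x hx
    have hxH : x ∈ H := hKH.le hx
    simp only [hxH, dif_pos]
    have h1 : (⟨x, hxH⟩ : H) ∈ M := hKM (by rw [mem_subgroupOf]; exact hx)
    have h2 : F ⟨x, hxH⟩ = 1 := by
      have h3 : QuotientGroup.mk' M ⟨x, hxH⟩ = 1 := (QuotientGroup.eq_one_iff _).2 h1
      change e (QuotientGroup.mk' M ⟨x, hxH⟩) = 1
      rw [h3, map_one]
    rw [h2, toAdd_one]
  · obtain ⟨a, ha⟩ := hFsurj (Multiplicative.ofAdd 1)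
    refine ⟨a.1, a.2, ?_⟩
    simp only [a.2, dif_pos]
    rw [show (⟨a.1, a.2⟩ : H) = a from rfl, ha, toAdd_ofAdd]

/-- a point `a` of `H` outside `closure N` with `closure (insert a N) = H` (here only `≤`) is
detected by a homomorphism killing `N`. -/
theorem exists_homOn_pt [Finite G] [Fact p.Prime] (hG : IsPGroup p G) {H : Subgroup G} {N : Set G}
    {a : G} (hN : N ⊆ H) (haH : a ∈ H) (ha : a ∉ closure N) (hgen : closure (insert a N) = H) :
    ∃ f : G → ZMod p, HomOn p H f ∧ (∀ x ∈ N, f x = 0) ∧ f a = 1 := by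
  have hlt : closure N < H := by
    refine lt_of_le_of_ne ((closure_le _).2 hN) ?_
    intro h
    exact ha (h ▸ haH)
  obtain ⟨f, hf, hf0, b, hb, hfb⟩ := exists_homOn hG hlt
  have hfa : f a ≠ 0 := by
    intro h0
    have : f b = 0 := by
      refine hf.eq_zero_of_closure (N := insert a N) (Set.insert_subset haH hN) ?_ (hgen ▸ hb)
      intro x hx
      rcases hx with rfl | hx
      · exact h0
      · exact hf0 x (subset_closure hx)
    rw [this] at hfb
    exact zero_ne_one hfb
  refine ⟨fun x => (f a)⁻¹ * f x, hf.smul _, ?_, ?_⟩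
  · intro x hx
    change (f a)⁻¹ * f x = 0
    rw [hf0 x (subset_closure hx), mul_zero]
  · exact inv_mul_cancel₀ hfa

/-- the same for an independent set `A` generating `H` -/
theorem exists_dual [Finite G] [Fact p.Prime] (hG : IsPGroup p G) {A : Set G} (hA : Indep A)
    {a : G} (ha : a ∈ A) :
    ∃ f : G → ZMod p, HomOn p (closure A) f ∧ (∀ x ∈ A, x ≠ a → f x = 0) ∧ f a = 1 := by
  have hins : insert a (A \ {a}) = A := by
    rw [Set.insert_sdiff_singleton, Set.insert_eq_of_mem ha]
  obtain ⟨f, hf, hf0, hfa⟩ := exists_homOn_pt (p := p) hG (H := closure A) (N := A \ {a}) (a := a)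
    (Set.sdiff_subset.trans subset_closure) (subset_closure ha) (hA a ha) (by rw [hins])
  exact ⟨f, hf, fun x hx hxa => hf0 x ⟨hx, hxa⟩, hfa⟩

/-- Lemma E: `A` independent, `C ⊆ A`, `C ⊆ L ≤ ⟨A⟩`, `L` generated by at most `|C|` elements:
then `L = ⟨C⟩`. -/
theorem closure_eq_of_small [Finite G] [Fact p.Prime] (hG : IsPGroup p G) {A C D : Set G}
    (hA : Indep A) (hCA : C ⊆ A) (hDA : D ⊆ closure A) (hCD : C ⊆ closure D)
    (hcard : D.ncard ≤ C.ncard) : closure D = closure C := by
  classical
  by_contra hne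
  have hlt : closure C < closure D :=
    lt_of_le_of_ne ((closure_le _).2 hCD) (fun h => hne h.symm)
  obtain ⟨g, hg, hg0, b, hb, hgb⟩ := exists_homOn hG hlt
  have hch : ∀ a : G, ∃ f : G → ZMod p, a ∈ A → HomOn p (closure A) f ∧
      (∀ x ∈ A, x ≠ a → f x = 0) ∧ f a = 1 := by
    intro a
    by_cases ha : a ∈ A
    · obtain ⟨f, hf⟩ := exists_dual (p := p) hG hA ha
      exact ⟨f, fun _ => hf⟩
    · exact ⟨fun _ => 0, fun h => absurd h ha⟩
  choose F hF using hch
  have hDle : closure D ≤ closure A := (closure_le _).2 hDA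
  have : Finite D := Set.toFinite D
  have : Finite C := Set.toFinite C
  have : Fintype D := Fintype.ofFinite D
  have : Fintype C := Fintype.ofFinite C
  let Φ : (Option C → ZMod p) →ₗ[ZMod p] (D → ZMod p) :=
    { toFun := fun v x => v none * g x + ∑ c : C, v (some c) * F c x
      map_add' := by
        intro v w
        funext x
        simp only [Pi.add_apply, add_mul, Finset.sum_add_distrib]
        ring
      map_smul' := by
        intro r v
        funext x
        simp only [Pi.smul_apply, smul_eq_mul, RingHom.id_apply, mul_add, Finset.mul_sum, mul_assoc] }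
  have hker : LinearMap.ker Φ ≠ ⊥ := by
    apply LinearMap.ker_ne_bot_of_finrank_lt
    rw [Module.finrank_fintype_fun_eq_card, Module.finrank_fintype_fun_eq_card,
      Fintype.card_option]
    have h1 : Fintype.card D = D.ncard := by
      rw [← Nat.card_eq_fintype_card]; rfl
    have h2 : Fintype.card C = C.ncard := by
      rw [← Nat.card_eq_fintype_card]; rfl
    omega
  obtain ⟨v, hv, hv0⟩ := (Submodule.ne_bot_iff _).1 hker
  -- the combination is a homomorphism on `closure D` vanishing on `D`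
  have hcomb : HomOn p (closure D) (fun x => v none * g x + ∑ c : C, v (some c) * F c x) := by
    refine (hg.smul _).add ?_
    exact HomOn.sum Finset.univ (f := fun c : C => F c)
      (fun c _ => ((hF c (hCA c.2)).1).mono hDle) (fun c => v (some c))
  have hvan : ∀ x ∈ closure D, v none * g x + ∑ c : C, v (some c) * F c x = 0 := by
    intro x hx
    refine hcomb.eq_zero_of_closure (N := D) subset_closure ?_ hx
    intro y hy
    exact congrFun (LinearMap.mem_ker.1 hv) ⟨y, hy⟩
  have hsome : ∀ c : C, v (some c) = 0 := by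
    intro c
    have h1 := hvan c (hCD c.2)
    rw [hg0 c (subset_closure c.2), mul_zero, zero_add, Finset.sum_eq_single c] at h1
    · rw [(hF c (hCA c.2)).2.2, mul_one] at h1
      exact h1
    · intro c' _ hc'
      rw [(hF c' (hCA c'.2)).2.1 c (hCA c.2) (fun h => hc' (Subtype.ext h.symm)), mul_zero]
    · intro h; exact absurd (Finset.mem_univ c) h
  have hnone : v none = 0 := by
    have h1 := hvan b hb
    rw [hgb, mul_one, Finset.sum_eq_zero (fun c _ => by rw [hsome c, zero_mul]), add_zero] at h1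
    exact h1
  apply hv0
  funext o
  cases o with
  | none => exact hnone
  | some c => exact hsome c

/-- Burnside: an independent set is no larger than any other generating set of the same
subgroup. -/
theorem ncard_le_of_closure_le [Finite G] [Fact p.Prime] (hG : IsPGroup p G) {A D : Set G}
    (hA : Indep A) (h : closure D = closure A) : A.ncard ≤ D.ncard := by
  by_contra hc
  push Not at hc
  obtain ⟨C, hCA, hC⟩ := Set.exists_subset_card_eq hc.le
  have hCA' : C ⊂ A := by
    refine hCA.ssubset_of_ne ?_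
    rintro rfl
    omega
  obtain ⟨a, haA, haC⟩ := Set.exists_of_ssubset hCA'
  have h1 : closure D = closure C := closure_eq_of_small hG hA hCA
    (by rw [← h]; exact subset_closure) (by rw [h]; exact hCA.trans subset_closure) hC.ge
  apply hA a haA
  have h2 : a ∈ closure C := by rw [← h1, h]; exact subset_closure haA
  have h3 : C ⊆ A \ {a} := fun x hx => ⟨hCA hx, fun hxa => haC (by
    rw [← (show x = a from hxa)]; exact hx)⟩
  exact Subgroup.closure_mono h3 h2

end Pool.Agent.IndComp
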