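import Pool.Agent.IndComp.CycIso

/-!
# Finite nilpotent groups
-/

namespace Pool.Agent.IndComp

open Subgroup

section general

variable {G : Type*} [Group G] [Finite G]

/-- an element lies in a subgroup containing all its primary parts -/
theorem mem_of_parts {K : Subgroup G} {x : G}
    (h : ∀ p : ℕ, p.Prime → p ∣ orderOf x → x ^ (ordCompl[p] (orderOf x)) ∈ K) : x ∈ K := by
  classical
  have hex : ∃ j : ℕ, 0 < j ∧ x ^ j ∈ K := ⟨orderOf x, orderOf_pos x, by
    rw [pow_orderOf_eq_one]; exact K.one_mem⟩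
  obtain ⟨hj0, hjK⟩ := Nat.find_spec hex
  set j := Nat.find hex with hj
  have hdiv : ∀ n : ℕ, x ^ n ∈ K → j ∣ n := by
    intro n hn
    rw [Nat.dvd_iff_mod_eq_zero]
    by_contra hne
    have h1 : x ^ (n % j) ∈ K := by
      have h2 : x ^ n = x ^ (j * (n / j)) * x ^ (n % j) := by
        rw [← pow_add, Nat.div_add_mod]
      have h3 : x ^ (n % j) = (x ^ (j * (n / j)))⁻¹ * x ^ n := by rw [h2]; group
      rw [h3]
      apply K.mul_mem _ hn
      apply K.inv_mem
      rw [pow_mul]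
      exact K.pow_mem hjK _
    exact Nat.find_min hex (Nat.mod_lt n hj0) ⟨Nat.pos_of_ne_zero hne, h1⟩
  have hj1 : j = 1 := by
    by_contra hne
    obtain ⟨p, hp, hpj⟩ := Nat.exists_prime_and_dvd hne
    have h1 : j ∣ orderOf x := hdiv _ (by rw [pow_orderOf_eq_one]; exact K.one_mem)
    have h2 : p ∣ orderOf x := hpj.trans h1
    have h3 := hdiv _ (h p hp h2)
    exact Nat.not_dvd_ordCompl hp (orderOf_pos x).ne' (hpj.trans h3)
  rw [hj1, pow_one] at hjK
  exact hjK

/-- the exponent projecting onto the `p`-part -/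
noncomputable def uexp (G : Type*) [Group G] [Finite G] (p : ℕ) (hp : p.Prime) : ℕ :=
  (Nat.chineseRemainder (Nat.coprime_ordCompl hp (Nat.card_pos (α := G)).ne' |>.pow_left
    ((Nat.card G).factorization p)) 1 0 : ℕ)

theorem uexp_modEq_one {p : ℕ} (hp : p.Prime) : uexp G p hp ≡ 1 [MOD ordProj[p] (Nat.card G)] :=
  (Nat.chineseRemainder (Nat.coprime_ordCompl hp (Nat.card_pos (α := G)).ne' |>.pow_left
    ((Nat.card G).factorization p)) 1 0).2.1

theorem uexp_modEq_zero {p : ℕ} (hp : p.Prime) : uexp G p hp ≡ 0 [MOD ordCompl[p] (Nat.card G)] :=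
  (Nat.chineseRemainder (Nat.coprime_ordCompl hp (Nat.card_pos (α := G)).ne' |>.pow_left
    ((Nat.card G).factorization p)) 1 0).2.2

/-- a `p`-element is fixed by the exponent `uexp` (also in an auxiliary group) -/
theorem pow_uexp_eq_self {L : Type*} [Group L] {p : ℕ} (hp : p.Prime) {c : L} {k : ℕ}
    (hc : orderOf c = p ^ k) (hd : orderOf c ∣ Nat.card G) : c ^ uexp G p hp = c := by
  have h1 : orderOf c ∣ ordProj[p] (Nat.card G) := by
    rw [hc] at hd ⊢
    exact pow_dvd_pow p ((hp.pow_dvd_iff_le_factorization (Nat.card_pos (α := G)).ne').1 hd)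
  have h2 : uexp G p hp ≡ 1 [MOD orderOf c] := (uexp_modEq_one hp).of_dvd h1
  have h3 : c ^ uexp G p hp = c ^ 1 := pow_eq_pow_iff_modEq.2 h2
  rw [h3, pow_one]

/-- a `q`-element with `q ≠ p` is killed by the exponent `uexp` -/
theorem pow_uexp_eq_one {L : Type*} [Group L] {p q : ℕ} (hp : p.Prime) (hq : q.Prime)
    (hpq : q ≠ p) {c : L} {k : ℕ}
    (hc : orderOf c = q ^ k) (hd : orderOf c ∣ Nat.card G) : c ^ uexp G p hp = 1 := by
  have h1 : orderOf c ∣ ordCompl[p] (Nat.card G) := by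
    rw [hc] at hd ⊢
    have h2 : (q ^ k).Coprime (ordProj[p] (Nat.card G)) :=
      Nat.Coprime.pow _ _ ((Nat.coprime_primes hq hp).2 hpq)
    have h3 : Nat.card G = ordProj[p] (Nat.card G) * ordCompl[p] (Nat.card G) :=
      (Nat.ordProj_mul_ordCompl_eq_self _ _).symm
    rw [h3] at hd
    exact h2.dvd_of_dvd_mul_left hd
  have h2 : uexp G p hp ≡ 0 [MOD orderOf c] := (uexp_modEq_zero hp).of_dvd h1
  have h3 : c ^ uexp G p hp = c ^ 0 := pow_eq_pow_iff_modEq.2 h2
  rw [h3, pow_zero]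

/-- the `uexp` power of any element is a `p`-element -/
theorem orderOf_pow_uexp {p : ℕ} (hp : p.Prime) (x : G) :
    ∃ k, orderOf (x ^ uexp G p hp) = p ^ k := by
  have h1 : orderOf (x ^ uexp G p hp) ∣ p ^ ((Nat.card G).factorization p) := by
    apply orderOf_dvd_of_pow_eq_one
    rw [← pow_mul]
    have h2 : ordCompl[p] (Nat.card G) ∣ uexp G p hp := (Nat.modEq_zero_iff_dvd).1 (uexp_modEq_zero hp)
    obtain ⟨s, hs⟩ := h2
    have h3 : uexp G p hp * p ^ ((Nat.card G).factorization p) = Nat.card G * s := by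
      rw [hs]
      calc ordCompl[p] (Nat.card G) * s * p ^ ((Nat.card G).factorization p)
          = (ordProj[p] (Nat.card G) * ordCompl[p] (Nat.card G)) * s := by ring
        _ = _ := by rw [Nat.ordProj_mul_ordCompl_eq_self]
    rw [h3, pow_mul, pow_card_eq_one', one_pow]
  obtain ⟨k, _, hk⟩ := (Nat.dvd_prime_pow hp).1 h1
  exact ⟨k, hk⟩

/-- components of elements of a product of Sylow subgroups -/
theorem comp_order {q : ℕ} [Fact q.Prime] (P : Sylow q G) (c : P) :
    (∃ k, orderOf c = q ^ k) ∧ orderOf c ∣ Nat.card G := by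
  refine ⟨(IsPGroup.iff_orderOf.1 P.isPGroup') c, ?_⟩
  exact (orderOf_dvd_natCard c).trans (Subgroup.card_subgroup_dvd_card (P : Subgroup G))

theorem pow_uexp_mul (hG : Group.IsNilpotent G) {p : ℕ} (hp : p.Prime) (x y : G) :
    (x * y) ^ uexp G p hp = x ^ uexp G p hp * y ^ uexp G p hp := by
  obtain ⟨e⟩ := ((Group.isNilpotent_of_finite_tfae (G := G)).out 0 4).mp hG
  apply e.symm.injective
  rw [map_mul, map_pow, map_pow, map_pow, map_mul]
  funext q P
  have : Fact (Nat.Prime q.1) := ⟨Nat.prime_of_mem_primeFactors q.2⟩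
  change (e.symm x q P * e.symm y q P) ^ uexp G p hp =
    (e.symm x q P) ^ uexp G p hp * (e.symm y q P) ^ uexp G p hp
  by_cases hqp : q.1 = p
  · have key : ∀ c : P, c ^ uexp G p hp = c := by
      intro c
      obtain ⟨⟨k, hk⟩, hd⟩ := comp_order P c
      have hk' : orderOf c = p ^ k := hk.trans (by rw [hqp])
      exact pow_uexp_eq_self hp hk' hd
    rw [key, key, key]
  · have key : ∀ c : P, c ^ uexp G p hp = 1 := by
      intro c
      obtain ⟨⟨k, hk⟩, hd⟩ := comp_order P c
      exact pow_uexp_eq_one hp Fact.out hqp hk hd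
    rw [key, key, key, one_mul]

/-- the projection onto the `p`-part as a homomorphism -/
noncomputable def projHom (hG : Group.IsNilpotent G) {p : ℕ} (hp : p.Prime) : G →* G where
  toFun x := x ^ uexp G p hp
  map_one' := one_pow _
  map_mul' := pow_uexp_mul hG hp

/-- elements with prescribed primary parts -/
theorem exists_parts (hG : Group.IsNilpotent G) (t : ℕ → G)
    (ht : ∀ p : ℕ, p.Prime → ∃ k, orderOf (t p) = p ^ k) :
    ∃ g : G, ∀ p ∈ (Nat.card G).primeFactors, t p ∈ zpowers g := by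
  obtain ⟨e⟩ := ((Group.isNilpotent_of_finite_tfae (G := G)).out 0 4).mp hG
  refine ⟨e (fun q P => e.symm (t q.1) q P), ?_⟩
  intro p hpN
  have hp : p.Prime := Nat.prime_of_mem_primeFactors hpN
  set g := e (fun q P => e.symm (t q.1) q P) with hg
  suffices h : g ^ uexp G p hp = t p by
    rw [← h]; exact Subgroup.pow_mem _ (mem_zpowers g) _
  apply e.symm.injective
  rw [map_pow, hg, e.symm_apply_apply]
  funext q P
  obtain ⟨q, hqm⟩ := q
  have : Fact (Nat.Prime q) := ⟨Nat.prime_of_mem_primeFactors hqm⟩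
  change (e.symm (t q) ⟨q, hqm⟩ P) ^ uexp G p hp = e.symm (t p) ⟨q, hqm⟩ P
  obtain ⟨⟨k, hk⟩, hd⟩ := comp_order P (e.symm (t q) ⟨q, hqm⟩ P)
  by_cases hqp : q = p
  · subst hqp
    exact pow_uexp_eq_self (G := G) hp hk hd
  · rw [pow_uexp_eq_one hp Fact.out hqp hk hd]
    symm
    rw [← orderOf_eq_one_iff]
    obtain ⟨m, hm⟩ := ht p hp
    have h1 : orderOf (e.symm (t p) ⟨q, hqm⟩ P) ∣ orderOf (t p) := by
      have h2 : orderOf (e.symm (t p)) = orderOf (t p) :=
        orderOf_injective e.symm.toMonoidHom e.symm.injective (t p)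
      rw [← h2]
      apply orderOf_dvd_of_pow_eq_one
      exact congrFun (congrFun (pow_orderOf_eq_one (e.symm (t p))) ⟨q, hqm⟩) P
    obtain ⟨⟨k', hk'⟩, _⟩ := comp_order P (e.symm (t p) ⟨q, hqm⟩ P)
    rw [hk', hm] at h1
    rw [hk']
    rcases Nat.eq_zero_or_pos k' with h0 | h0
    · rw [h0, pow_zero]
    · exfalso
      have h2 : q ∣ p ^ m := (dvd_pow_self _ h0.ne').trans h1
      exact hqp ((Nat.prime_dvd_prime_iff_eq Fact.out hp).1 ((Fact.out : q.Prime).dvd_of_dvd_pow h2))

/-- in a finite group with a normal Sylow subgroup the `p`-elements are its elements -/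
theorem mem_sylow_iff {p : ℕ} [Fact p.Prime] (P : Sylow p G) (hP : (P : Subgroup G).Normal)
    (x : G) : x ∈ (P : Subgroup G) ↔ ∃ k, orderOf x = p ^ k := by
  constructor
  · intro hx
    obtain ⟨k, hk⟩ := (IsPGroup.iff_orderOf.1 P.isPGroup') ⟨x, hx⟩
    refine ⟨k, ?_⟩
    rw [← hk, ← Subgroup.orderOf_coe]
  · rintro ⟨k, hk⟩
    have h1 : IsPGroup p (zpowers x) := IsPGroup.of_card (n := k) (by rw [Nat.card_zpowers, hk])
    obtain ⟨Q, hQ⟩ := h1.exists_le_sylow
    have := Sylow.unique_of_normal P hP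
    have h2 : Q = P := Subsingleton.elim _ _
    rw [← h2]
    exact hQ (mem_zpowers x)

theorem nilpotent_sylow_normal (hG : Group.IsNilpotent G) {p : ℕ} [Fact p.Prime] (P : Sylow p G) :
    (P : Subgroup G).Normal := by
  have := hG
  infer_instance

/-- enumeration of a small set -/
theorem exists_enum {T : Set G} {P : Subgroup G} (hT : T ⊆ P) {k : ℕ} (hk : T.ncard ≤ k) :
    ∃ t : Fin k → G, T ⊆ Set.range t ∧ ∀ i, t i ∈ P := by
  classical
  have : Fintype T := Fintype.ofFinite T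
  have hcard : Fintype.card T ≤ k := by
    rw [← Nat.card_eq_fintype_card]; exact hk
  let e := Fintype.equivFin T
  refine ⟨fun i => if h : i.1 < Fintype.card T then (e.symm ⟨i.1, h⟩ : T) else 1, ?_, ?_⟩
  · intro x hx
    have hlt : (e ⟨x, hx⟩).1 < k := lt_of_lt_of_le (e ⟨x, hx⟩).2 hcard
    refine ⟨⟨(e ⟨x, hx⟩).1, hlt⟩, ?_⟩
    have h1 : (e ⟨x, hx⟩).1 < Fintype.card T := (e ⟨x, hx⟩).2
    simp only [h1, dif_pos]
    have h2 : (⟨(e ⟨x, hx⟩).1, h1⟩ : Fin (Fintype.card T)) = e ⟨x, hx⟩ := rfl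
    rw [h2, e.symm_apply_apply]
  · intro i
    by_cases h : i.1 < Fintype.card T
    · simp only [h, dif_pos]
      exact hT (e.symm ⟨i.1, h⟩).2
    · simp only [h, dif_neg, not_false_eq_true]
      exact P.one_mem

theorem indep_val {P : Subgroup G} (A : Set P) :
    Indep (Subtype.val '' A : Set G) ↔ Indep A := by
  have key : ∀ a : P, (a : G) ∈ closure ((Subtype.val '' A : Set G) \ {(a : G)}) ↔
      a ∈ closure (A \ {a}) := by
    intro a
    have h1 : (Subtype.val '' A : Set G) \ {(a : G)} = P.subtype '' (A \ {a}) := by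
      rw [Set.image_sdiff P.subtype_injective, Set.image_singleton]; rfl
    rw [h1, ← MonoidHom.map_closure]
    constructor
    · rintro ⟨b, hb, hba⟩
      have hba' : b = a := P.subtype_injective hba
      rw [hba'] at hb; exact hb
    · intro h
      exact ⟨a, h, rfl⟩
  constructor
  · intro h a ha hc
    exact h a ⟨a, ha, rfl⟩ ((key a).2 hc)
  · rintro h _ ⟨a, ha, rfl⟩ hc
    exact h a ha ((key a).1 hc)

end general

section iso

variable {G₁ G₂ : Type*} [Group G₁] [Finite G₁] [Group G₂] [Finite G₂] {φ : G₁ ≃ G₂}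

/-- the `p`-group theorem restricted to corresponding `p`-subgroups -/
theorem restricted {p : ℕ} [Fact p.Prime] (hφ : IndepIso φ) {P : Subgroup G₁} {P' : Subgroup G₂}
    (hP : IsPGroup p P) (hP' : IsPGroup p P') (h : ∀ x, φ x ∈ P' ↔ x ∈ P) {T : Set G₁}
    (hT : T ⊆ P) {k : ℕ} (hk : T.ncard ≤ k) :
    ∃ T' : Set G₂, T' ⊆ P' ∧ T'.ncard ≤ k ∧ ∀ x ∈ closure T, φ x ∈ closure T' := by
  classical
  let ψ : P ≃ P' := φ.subtypeEquiv fun x => (h x).symm
  have hval : ∀ A : Set P, (Subtype.val '' (ψ '' A) : Set G₂) = φ '' (Subtype.val '' A) := by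
    intro A
    ext z
    constructor
    · rintro ⟨_, ⟨a, ha, rfl⟩, rfl⟩
      exact ⟨a, ⟨a, ha, rfl⟩, rfl⟩
    · rintro ⟨_, ⟨a, ha, rfl⟩, rfl⟩
      exact ⟨ψ a, ⟨a, ha, rfl⟩, rfl⟩
  have hψ : IndepIso ψ := by
    intro A
    rw [← indep_val, hval, hφ, indep_val]
  let T₀ : Set P := Subtype.val ⁻¹' T
  have hT₀ : (Subtype.val '' T₀ : Set G₁) = T := by
    ext z
    constructor
    · rintro ⟨w, hw, rfl⟩
      exact hw
    · intro hz
      exact ⟨⟨z, hT hz⟩, hz, rfl⟩
  have hT₀card : T₀.ncard ≤ k := by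
    rw [← Set.ncard_image_of_injective T₀ Subtype.val_injective, hT₀]; exact hk
  obtain ⟨M, hHM, hdM, hMmax⟩ := exists_maximal_le (H := closure T₀) (k := k)
    ((d_le rfl).trans hT₀card)
  obtain ⟨B, hB, hBM, himg⟩ := maximal_image hP hP' hψ (H := M)
    (fun L h1 h2 => hMmax L h1 (h2.trans hdM))
  refine ⟨Subtype.val '' (ψ '' B), ?_, ?_, ?_⟩
  · rintro _ ⟨z, _, rfl⟩
    exact z.2
  · rw [Set.ncard_image_of_injective _ Subtype.val_injective,
      Set.ncard_image_of_injective _ ψ.injective, hB.ncard_eq_d hP, hBM]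
    exact hdM
  · intro x hx
    have h1 : x ∈ (closure T₀).map P.subtype := by
      rw [MonoidHom.map_closure]
      change x ∈ closure (Subtype.val '' T₀)
      rw [hT₀]; exact hx
    obtain ⟨w, hw, rfl⟩ := h1
    have h2 : ψ w ∈ closure (ψ '' B) := (himg w).2 (hHM hw)
    have h3 : ((ψ w : P') : G₂) ∈ (closure (ψ '' B)).map P'.subtype := ⟨ψ w, h2, rfl⟩
    rw [MonoidHom.map_closure] at h3
    exact h3

/-- the number of elements of each order determines the Sylow subgroups: if `G₁` is nilpotent so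
is `G₂` -/
theorem nilpotent_of_orderOf (hG : Group.IsNilpotent G₁) (ho : ∀ x, orderOf (φ x) = orderOf x) :
    Group.IsNilpotent G₂ := by
  refine ((Group.isNilpotent_of_finite_tfae (G := G₂)).out 0 3).mpr ?_
  intro p hp P'
  have : Fact p.Prime := hp
  let P : Sylow p G₁ := default
  have hP := nilpotent_sylow_normal hG P
  have hcard : Nat.card G₁ = Nat.card G₂ := Nat.card_congr φ
  have hPP : Nat.card P = Nat.card P' := by
    rw [Sylow.card_eq_multiplicity, Sylow.card_eq_multiplicity, hcard]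
  have hsub : (P' : Set G₂) ⊆ φ '' (P : Set G₁) := by
    intro z hz
    obtain ⟨k, hk⟩ := (IsPGroup.iff_orderOf.1 P'.isPGroup') ⟨z, hz⟩
    rw [← Subgroup.orderOf_coe] at hk
    obtain ⟨x, rfl⟩ := φ.surjective z
    refine ⟨x, ?_, rfl⟩
    apply (mem_sylow_iff P hP x).2
    refine ⟨k, ?_⟩
    rw [← ho]; exact hk
  have heq : (P' : Set G₂) = φ '' (P : Set G₁) := by
    apply Set.eq_of_subset_of_ncard_le hsub _ (Set.toFinite _)
    rw [Set.ncard_image_of_injective _ φ.injective]
    exact hPP.le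
  have hmem : ∀ z : G₂, z ∈ (P' : Subgroup G₂) ↔ ∃ k, orderOf z = p ^ k := by
    intro z
    obtain ⟨x, rfl⟩ := φ.surjective z
    rw [ho, ← mem_sylow_iff P hP x]
    constructor
    · intro h
      have h1 : φ x ∈ φ '' (P : Set G₁) := by rw [← heq]; exact h
      obtain ⟨y, hy, hyx⟩ := h1
      rw [← φ.injective hyx]; exact hy
    · intro h
      have h1 : φ x ∈ (P' : Set G₂) := by rw [heq]; exact ⟨x, h, rfl⟩
      exact h1
  refine ⟨fun n hn g => ?_⟩
  rw [hmem] at hn ⊢
  obtain ⟨k, hk⟩ := hn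
  refine ⟨k, ?_⟩
  rw [← hk]
  exact orderOf_injective (MulAut.conj g).toMonoidHom (MulAut.conj g).injective n

theorem mixed_forward (hG₁ : Mixed G₁) (hG₂ : Mixed G₂) (hφ : IndepIso φ) {A : Set G₁}
    (h : StrongIndep (φ '' A)) : StrongIndep A := by
  classical
  by_contra hcon
  unfold StrongIndep at hcon
  push Not at hcon
  obtain ⟨H, hAH, hdH⟩ := hcon
  obtain ⟨S, hSk, hSH⟩ := exists_d H
  set k := d H with hk
  have hcardG : Nat.card G₁ = Nat.card G₂ := Nat.card_congr φ
  -- for each prime the transferred generators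
  have hprime : ∀ p : ℕ, ∀ hp : p.Prime, ∃ t : Fin k → G₂,
      (∀ i, ∃ m, orderOf (t i) = p ^ m) ∧
      ∀ x ∈ Subgroup.closure ((fun s => s ^ uexp G₁ p hp) '' S),
        φ x ∈ Subgroup.closure (Set.range t) := by
    intro p hp
    have : Fact p.Prime := ⟨hp⟩
    let P : Sylow p G₁ := default
    let P' : Sylow p G₂ := default
    have hP := nilpotent_sylow_normal hG₁.nil P
    have hP' := nilpotent_sylow_normal hG₂.nil P'
    have hmem : ∀ x, φ x ∈ (P' : Subgroup G₂) ↔ x ∈ (P : Subgroup G₁) := by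
      intro x
      rw [mem_sylow_iff P' hP', mem_sylow_iff P hP, hφ.orderOf_eq hG₁]
    have hT : ((fun s => s ^ uexp G₁ p hp) '' S) ⊆ (P : Subgroup G₁) := by
      rintro _ ⟨s, _, rfl⟩
      exact (mem_sylow_iff P hP _).2 (orderOf_pow_uexp hp s)
    have hTk : ((fun s => s ^ uexp G₁ p hp) '' S).ncard ≤ k := by
      rw [← hSk]; exact Set.ncard_image_le (Set.toFinite S)
    obtain ⟨T', hT'P, hT'k, hT'⟩ := restricted hφ P.isPGroup' P'.isPGroup' hmem hT hTk
    obtain ⟨t, ht, htP⟩ := exists_enum hT'P hT'k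
    refine ⟨t, fun i => (mem_sylow_iff P' hP' _).1 (htP i), fun x hx => ?_⟩
    exact Subgroup.closure_mono ht (hT' x hx)
  choose! t ht htc using hprime
  have hg : ∀ i : Fin k, ∃ g : G₂, ∀ p ∈ (Nat.card G₂).primeFactors, t p i ∈ zpowers g := by
    intro i
    exact exists_parts hG₂.nil (fun p => t p i) (fun p hp => ht p hp i)
  choose g hg using hg
  have h1 := h (closure (Set.range g)) ?_
  · have h2 : d (closure (Set.range g)) ≤ (Set.range g).ncard := d_le rfl
    have h3 : (Set.range g).ncard ≤ k := by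
      have := Set.ncard_image_le (f := g) (Set.toFinite (Set.univ : Set (Fin k)))
      rw [Set.image_univ, Set.ncard_univ, Nat.card_eq_fintype_card, Fintype.card_fin] at this
      exact this
    rw [Set.ncard_image_of_injective _ φ.injective] at h1
    omega
  · rintro _ ⟨a, ha, rfl⟩
    apply mem_of_parts
    intro p hp hpd
    set b := φ a ^ (ordCompl[p] (orderOf (φ a))) with hb
    have hbo : orderOf b = ordProj[p] (orderOf (φ a)) := by
      have h4 : ordCompl[p] (orderOf (φ a)) ∣ orderOf (φ a) := Nat.ordCompl_dvd _ _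
      have h5 : ordCompl[p] (orderOf (φ a)) ≠ 0 := by
        intro h0
        rw [h0] at h4
        exact (orderOf_pos (φ a)).ne' (Nat.eq_zero_of_zero_dvd h4)
      rw [hb, orderOf_pow_of_dvd h5 h4]
      apply Nat.div_eq_of_eq_mul_left (Nat.pos_of_ne_zero h5)
      exact (Nat.ordProj_mul_ordCompl_eq_self _ _).symm
    obtain ⟨c, hc⟩ := φ.surjective b
    have hca : c ∈ zpowers a := by
      rw [← hφ.mem_zpowers_iff hG₁, hc, hb]
      exact Subgroup.pow_mem _ (mem_zpowers _) _
    have hco : orderOf c = p ^ ((orderOf (φ a)).factorization p) := by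
      rw [← hφ.orderOf_eq hG₁, hc, hbo]
    have hcu : c ^ uexp G₁ p hp = c := pow_uexp_eq_self hp hco (orderOf_dvd_natCard c)
    obtain ⟨j, hj⟩ := hca
    have hcl : c ∈ Subgroup.closure ((fun s => s ^ uexp G₁ p hp) '' S) := by
      have h4 : a ^ uexp G₁ p hp ∈ (closure S).map (projHom hG₁.nil hp) :=
        ⟨a, by rw [hSH]; exact hAH ha, rfl⟩
      rw [MonoidHom.map_closure] at h4
      have h5 : c = (a ^ uexp G₁ p hp) ^ j := by
        rw [← hcu, ← hj]
        change (a ^ j) ^ uexp G₁ p hp = (a ^ uexp G₁ p hp) ^ j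
        rw [← zpow_natCast, ← zpow_natCast, ← zpow_mul, ← zpow_mul, mul_comm]
      rw [h5]
      exact Subgroup.zpow_mem _ h4 j
    have h6 := htc p hp c hcl
    rw [hc] at h6
    refine (closure_le _).2 ?_ h6
    rintro _ ⟨i, rfl⟩
    have hpN : p ∈ (Nat.card G₂).primeFactors :=
      Nat.mem_primeFactors.2 ⟨hp, hpd.trans (orderOf_dvd_natCard _), Nat.card_pos.ne'⟩
    have h7 : zpowers (g i) ≤ closure (Set.range g) :=
      zpowers_le.2 (subset_closure ⟨i, rfl⟩)
    exact h7 (hg i p hpN)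

theorem nilpotent_iso (hG₁ : Group.IsNilpotent G₁) (hφ : IndepIso φ) (A : Set G₁) :
    StrongIndep (φ '' A) ↔ StrongIndep A := by
  by_cases hmix : Mixed G₁
  · have hcard : Nat.card G₁ = Nat.card G₂ := Nat.card_congr φ
    have hmix₂ : Mixed G₂ := by
      refine ⟨nilpotent_of_orderOf hG₁ (hφ.orderOf_eq hmix), ?_⟩
      intro q hq
      obtain ⟨l, hl, hlq, hld⟩ := hmix.two q hq
      exact ⟨l, hl, hlq, by rw [← hcard]; exact hld⟩
    constructor
    · exact mixed_forward hmix hmix₂ hφ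
    · intro h
      apply mixed_forward hmix₂ hmix hφ.symm
      rw [← Set.image_comp]
      simpa using h
  · -- prime power order
    have hex : ∃ q : ℕ, q.Prime ∧ ∀ l : ℕ, l.Prime → l ∣ Nat.card G₁ → l = q := by
      by_contra hc
      push Not at hc
      apply hmix
      refine ⟨hG₁, fun q hq => ?_⟩
      obtain ⟨l, hl, hld, hlq⟩ := hc q hq
      exact ⟨l, hl, hlq, hld⟩
    obtain ⟨q, hq, huniq⟩ := hex
    have : Fact q.Prime := ⟨hq⟩
    have hpow := Nat.eq_prime_pow_of_unique_prime_dvd (Nat.card_pos (α := G₁)).ne'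
      (fun {l} hl hld => huniq l hl hld)
    have h₁ : IsPGroup q G₁ := IsPGroup.of_card hpow
    have h₂ : IsPGroup q G₂ := by
      apply IsPGroup.of_card (n := (Nat.card G₁).primeFactorsList.length)
      rw [← Nat.card_congr φ]; exact hpow
    exact pgroup_iso h₁ h₂ hφ A

end iso

end Pool.Agent.IndComp
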