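import Pool.Agent.IndComp.Common

/-!
# Isomorphisms of independence complexes of finite `p`-groups
-/

namespace Pool.Agent.IndComp

open Subgroup

/-- `φ` is an isomorphism of independence complexes -/
def IndepIso {G₁ G₂ : Type*} [Group G₁] [Group G₂] (φ : G₁ ≃ G₂) : Prop :=
  ∀ A : Set G₁, Indep (φ '' A) ↔ Indep A

section basics

variable {G₁ G₂ : Type*} [Group G₁] [Group G₂] {φ : G₁ ≃ G₂}

theorem IndepIso.symm (h : IndepIso φ) : IndepIso φ.symm := by
  intro A
  rw [← h (φ.symm '' A), ← Set.image_comp]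
  simp

theorem indep_singleton {G : Type*} [Group G] (a : G) : Indep ({a} : Set G) ↔ a ≠ 1 := by
  unfold Indep
  simp

theorem IndepIso.map_one (h : IndepIso φ) : φ 1 = 1 := by
  by_contra hne
  have h1 : Indep ({φ 1} : Set G₂) := (indep_singleton _).2 hne
  rw [← Set.image_singleton] at h1
  exact (indep_singleton (1 : G₁)).1 ((h _).1 h1) rfl

theorem IndepIso.dep (h : IndepIso φ) {A : Set G₁} {c : G₁} (hc : c ∉ A)
    (hd : ¬ Indep (insert c A)) :
    φ c ∈ closure (φ '' A) ∨ ∃ i ∈ A, φ i ∈ closure (insert (φ c) (φ '' (A \ {i}))) := by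
  have h1 : ¬ Indep (insert (φ c) (φ '' A)) := by
    rw [← Set.image_insert_eq, h]; exact hd
  have h2 : φ c ∉ φ '' A := by
    rintro ⟨x, hx, hxc⟩
    exact hc (φ.injective hxc ▸ hx)
  rcases dep_insert h2 h1 with h3 | ⟨i, ⟨i₀, hi₀, rfl⟩, h4⟩
  · exact Or.inl h3
  · right
    refine ⟨i₀, hi₀, ?_⟩
    rw [Set.image_sdiff φ.injective, Set.image_singleton]
    exact h4

end basics

section main

variable {G₁ G₂ : Type*} [Group G₁] [Finite G₁] [Group G₂] [Finite G₂] {p : ℕ} [Fact p.Prime]
  {φ : G₁ ≃ G₂}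

/-- the images of bases of `H` generate subgroups inside the image of `H` -/
def Star (φ : G₁ ≃ G₂) (H : Subgroup G₁) : Prop :=
  ∀ A : Set G₁, Indep A → closure A = H → ∀ x, φ x ∈ closure (φ '' A) → x ∈ H

/-- `A` is a basis of `H` with largest image subgroup -/
structure MaxBasis (φ : G₁ ≃ G₂) (H : Subgroup G₁) (A : Set G₁) : Prop where
  indep : Indep A
  gen : closure A = H
  max : ∀ B : Set G₁, Indep B → closure B = H →
    Nat.card (closure (φ '' B)) ≤ Nat.card (closure (φ '' A))

theorem exists_maxBasis (φ : G₁ ≃ G₂) (H : Subgroup G₁) : ∃ A, MaxBasis φ H A := by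
  have hne : {A : Set G₁ | Indep A ∧ closure A = H}.Nonempty := by
    obtain ⟨S, h1, _, h3⟩ := exists_basis H
    exact ⟨S, h1, h3⟩
  obtain ⟨A, hA, hmax⟩ := Set.exists_max_image _ (fun A => Nat.card (closure (φ '' A)))
    (Set.toFinite _) hne
  exact ⟨A, hA.1, hA.2, fun B h1 h2 => hmax B ⟨h1, h2⟩⟩

theorem MaxBasis.eq_of_le {H : Subgroup G₁} {A B : Set G₁} (hA : MaxBasis φ H A) (hB : Indep B)
    (hBH : closure B = H) (hle : closure (φ '' A) ≤ closure (φ '' B)) :
    closure (φ '' B) = closure (φ '' A) :=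
  (Subgroup.eq_of_le_of_card_ge hle (hA.max B hB hBH)).symm

theorem MaxBasis.of_eq {H : Subgroup G₁} {A B : Set G₁} (hA : MaxBasis φ H A) (hB : Indep B)
    (hBH : closure B = H) (he : closure (φ '' B) = closure (φ '' A)) : MaxBasis φ H B :=
  ⟨hB, hBH, fun C h1 h2 => by rw [he]; exact hA.max C h1 h2⟩

theorem MaxBasis.exchange (hG₁ : IsPGroup p G₁) {H : Subgroup G₁} {A : Set G₁}
    (hA : MaxBasis φ H A) {c : G₁} (hcK : φ c ∉ closure (φ '' A)) {i : G₁} (hi : i ∈ A)
    (hic : φ i ∈ closure (insert (φ c) (φ '' (A \ {i})))) :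
    closure (insert c (A \ {i})) ≠ H := by
  intro hgen
  have hcA : c ∉ A := fun h => hcK (subset_closure ⟨c, h, rfl⟩)
  have hcard : (insert c (A \ {i})).ncard ≤ A.ncard := by
    have h1 := Set.ncard_insert_le c (A \ {i})
    have h2 := Set.ncard_sdiff_singleton_add_one hi (Set.toFinite A)
    omega
  have hind : Indep (insert c (A \ {i})) :=
    indep_of_ncard_le hG₁ hA.indep (by rw [hgen, hA.gen]) hcard
  have hle : closure (φ '' A) ≤ closure (φ '' (insert c (A \ {i}))) := by
    rw [closure_le, Set.image_insert_eq]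
    rintro _ ⟨x, hx, rfl⟩
    by_cases hxi : x = i
    · rw [hxi]; exact hic
    · exact subset_closure (Or.inr ⟨x, ⟨hx, hxi⟩, rfl⟩)
  have heq := hA.eq_of_le hind hgen hle
  apply hcK
  rw [← heq]
  exact subset_closure ⟨c, Set.mem_insert _ _, rfl⟩

/-- a point of `H` outside the largest image subgroup is dependent in the wrong direction -/
theorem MaxBasis.exists_wrong (hG₁ : IsPGroup p G₁) (hφ : IndepIso φ) {H : Subgroup G₁}
    {A : Set G₁} (hA : MaxBasis φ H A) {c : G₁} (hc : c ∈ H) (hcK : φ c ∉ closure (φ '' A)) :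
    ∃ i ∈ A, φ i ∈ closure (insert (φ c) (φ '' (A \ {i}))) ∧
      closure (insert c (A \ {i})) ≠ H := by
  have hcA : c ∉ A := fun h => hcK (subset_closure ⟨c, h, rfl⟩)
  have hd : ¬ Indep (insert c A) := not_indep_insert hcA (by rw [hA.gen]; exact hc)
  rcases hφ.dep hcA hd with h | ⟨i, hi, hic⟩
  · exact absurd h hcK
  · exact ⟨i, hi, hic, hA.exchange hG₁ hcK hi hic⟩

/-- the final count -/
theorem MaxBasis.final (hG₁ : IsPGroup p G₁) (hG₂ : IsPGroup p G₂) (hφ : IndepIso φ)
    {H : Subgroup G₁} {A : Set G₁} (hA : MaxBasis φ H A) (hstar : Star φ H) {f : G₁ → ZMod p}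
    (hf : HomOn p H f) {j : G₁} (hj : j ∈ H) (hfj : f j = 1)
    (hall : ∀ c ∈ H, f c ≠ 0 → φ c ∈ closure (φ '' A)) :
    ∀ x, φ x ∈ closure (φ '' A) ↔ x ∈ H := by
  have hp : p.Prime := Fact.out
  have hsub : ∀ x, φ x ∈ closure (φ '' A) → x ∈ H := hstar A hA.indep hA.gen
  set K := closure (φ '' A) with hK
  let T : Set G₁ := {y | y ∈ H ∧ f y = 1}
  have hT1 : (1 : G₁) ∉ T := by
    rintro ⟨_, h⟩
    rw [hf.one] at h; exact zero_ne_one h
  have h2 : T.ncard + 1 ≤ (K : Set G₂).ncard :=
    card_lt_of_maps φ hφ.map_one hT1 K.one_mem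
      (fun y hy => hall y hy.1 (by rw [hy.2]; exact one_ne_zero))
  have h3 : Nat.card H ≤ p * T.ncard := card_le_fiber_one hf hj hfj
  have hKcard : (K : Set G₂).ncard = Nat.card K := rfl
  -- the preimage of K has the same card
  let S : Set G₁ := φ ⁻¹' K
  have hScard : S.ncard = Nat.card K := by
    have : φ '' S = K := Set.image_preimage_eq _ φ.surjective
    rw [← hKcard, ← this, Set.ncard_image_of_injective _ φ.injective]
  have hSH : S ⊆ H := fun x hx => hsub x hx
  have hle : Nat.card K ≤ Nat.card H := by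
    rw [← hScard]
    exact Set.ncard_le_ncard hSH (Set.toFinite _)
  obtain ⟨a, ha⟩ := (hG₂.to_subgroup K).exists_card_eq
  obtain ⟨b, hb⟩ := (hG₁.to_subgroup H).exists_card_eq
  have hab : b ≤ a := by
    by_contra hc
    push Not at hc
    have h5 : p ^ (a + 1) ≤ p ^ b := Nat.pow_le_pow_right hp.pos hc
    rw [pow_succ, ← ha, ← hb] at h5
    have h6 : p * (T.ncard + 1) ≤ p * Nat.card K := Nat.mul_le_mul_left _ (by rw [← hKcard]; exact h2)
    have : 0 < p := hp.pos
    nlinarith
  have hge : Nat.card H ≤ Nat.card K := by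
    rw [ha, hb]; exact Nat.pow_le_pow_right hp.pos hab
  have hSeq : S = H := Set.eq_of_subset_of_ncard_le hSH (by rw [hScard]; exact hge) (Set.toFinite _)
  intro x
  constructor
  · exact hsub x
  · intro hx
    have : x ∈ S := by rw [hSeq]; exact hx
    exact this

/-- sub-bases of star subgroups generate star subgroups -/
theorem Star.sub (hG₁ : IsPGroup p G₁) (hφ : IndepIso φ) {H : Subgroup G₁} (hstar : Star φ H)
    {A C : Set G₁} (hA : Indep A) (hAH : closure A = H) (hCA : C ⊆ A) : Star φ (closure C) := by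
  intro C₂ hC₂ hC₂C y hy
  have hcard : C₂.ncard = C.ncard := by
    rw [hC₂.ncard_eq_d hG₁, hC₂C, ← (hA.mono hCA).ncard_eq_d hG₁]
  set B := C₂ ∪ (A \ C) with hB
  have hBgen : closure B = H := by
    rw [← hAH]
    apply le_antisymm
    · rw [closure_le]
      rintro x (hx | hx)
      · have : x ∈ closure C := by rw [← hC₂C]; exact subset_closure hx
        exact Subgroup.closure_mono hCA this
      · exact subset_closure hx.1
    · rw [closure_le]
      intro x hx
      by_cases hxC : x ∈ C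
      · have : x ∈ closure C₂ := by rw [hC₂C]; exact subset_closure hxC
        exact Subgroup.closure_mono Set.subset_union_left this
      · exact subset_closure (Or.inr ⟨hx, hxC⟩)
  have hBcard : B.ncard ≤ A.ncard := by
    have h1 : B.ncard ≤ C₂.ncard + (A \ C).ncard := Set.ncard_union_le C₂ (A \ C)
    have h2 : (A \ C).ncard + C.ncard = A.ncard :=
      Set.ncard_sdiff_add_ncard_of_subset hCA (Set.toFinite A)
    omega
  have hBind : Indep B := indep_of_ncard_le hG₁ hA (by rw [hBgen, hAH]) hBcard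
  have hyH : y ∈ H := hstar B hBind hBgen y
    (Subgroup.closure_mono (Set.image_mono Set.subset_union_left) hy)
  by_cases hyC : y ∈ C₂
  · rw [← hC₂C]; exact subset_closure hyC
  have hdep : ¬ Indep (insert y C₂) := by
    rw [← hφ, Set.image_insert_eq]
    apply not_indep_insert _ hy
    rintro ⟨x, hx, hxy⟩
    exact hyC (φ.injective hxy ▸ hx)
  rcases dep_insert hyC hdep with h | ⟨b, hb, hbc⟩
  · rw [← hC₂C]; exact h
  · have hDH : insert y (C₂ \ {b}) ⊆ (closure B : Set G₁) := by
      apply Set.insert_subset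
      · rw [hBgen]; exact hyH
      · exact fun x hx => subset_closure (Or.inl hx.1)
    have hCD : C₂ ⊆ (closure (insert y (C₂ \ {b})) : Set G₁) := by
      intro x hx
      by_cases hxb : x = b
      · rw [hxb]; exact hbc
      · exact subset_closure (Or.inr ⟨hx, hxb⟩)
    have hDcard : (insert y (C₂ \ {b})).ncard ≤ C₂.ncard := by
      have h1 := Set.ncard_insert_le y (C₂ \ {b})
      have h2 := Set.ncard_sdiff_singleton_add_one hb (Set.toFinite C₂)
      omega
    have heq := closure_eq_of_small hG₁ hBind (C := C₂) (D := insert y (C₂ \ {b}))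
      Set.subset_union_left hDH hCD hDcard
    rw [← hC₂C, ← heq]
    exact subset_closure (Set.mem_insert _ _)

/-- duals for a pair -/
theorem exists_dual_pair {G : Type*} [Group G] [Finite G] (hG : IsPGroup p G) {i j : G}
    (hij : i ≠ j) (hI : Indep ({i, j} : Set G)) :
    ∃ f g : G → ZMod p, HomOn p (closure {i, j}) f ∧ HomOn p (closure {i, j}) g ∧ f i = 1 ∧
      f j = 0 ∧ g i = 0 ∧ g j = 1 := by
  obtain ⟨f, hf, hf0, hf1⟩ := exists_dual (p := p) hG hI (a := i) (Set.mem_insert _ _)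
  obtain ⟨g, hg, hg0, hg1⟩ := exists_dual (p := p) hG hI (a := j) (Or.inr rfl)
  exact ⟨f, g, hf, hg, hf1, hf0 j (Or.inr rfl) hij.symm, hg0 i (Set.mem_insert _ _) hij, hg1⟩

theorem image_pair' (φ : G₁ ≃ G₂) (i j : G₁) : φ '' {i, j} = {φ i, φ j} := by
  rw [Set.image_insert_eq, Set.image_singleton]

theorem pair_sdiff_left {G : Type*} {i j : G} (hij : i ≠ j) : ({i, j} : Set G) \ {i} = {j} := by
  ext x
  simp only [Set.mem_sdiff, Set.mem_insert_iff, Set.mem_singleton_iff]
  constructor
  · rintro ⟨h | h, h2⟩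
    · exact absurd h h2
    · exact h
  · intro h
    exact ⟨Or.inr h, fun h2 => hij (h2 ▸ h)⟩

theorem pair_sdiff_right {G : Type*} {i j : G} (hij : i ≠ j) : ({i, j} : Set G) \ {j} = {i} := by
  rw [Set.pair_comm]; exact pair_sdiff_left hij.symm

/-- the rank two case -/
theorem rank_two (hG₁ : IsPGroup p G₁) (hG₂ : IsPGroup p G₂) (hφ : IndepIso φ) {i₀ j₀ : G₁}
    (hij₀ : i₀ ≠ j₀) (hI₀ : Indep ({i₀, j₀} : Set G₁)) (hstar : Star φ (closure {i₀, j₀})) :
    ∃ A : Set G₁, Indep A ∧ A.ncard = 2 ∧ closure A = closure {i₀, j₀} ∧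
      ∀ x, φ x ∈ closure (φ '' A) ↔ x ∈ closure {i₀, j₀} := by
  classical
  have hp : p.Prime := Fact.out
  obtain ⟨A, hA⟩ := exists_maxBasis φ (closure {i₀, j₀})
  set H := closure ({i₀, j₀} : Set G₁) with hH
  have hAcard : A.ncard = 2 := by
    rw [hA.indep.ncard_eq_d hG₁, hA.gen, hH, ← hI₀.ncard_eq_d hG₁, Set.ncard_pair hij₀]
  refine ⟨A, hA.indep, hAcard, hA.gen, ?_⟩
  -- it suffices to treat the points not killed by a dual homomorphism
  have hAne : A.Nonempty := by
    rw [← Set.ncard_pos (Set.toFinite A)]; omega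
  obtain ⟨j, hj⟩ := hAne
  obtain ⟨g, hg, hg0, hgj⟩ := exists_dual (p := p) hG₁ hA.indep hj
  rw [hA.gen] at hg
  have hjH : j ∈ H := by rw [← hA.gen]; exact subset_closure hj
  refine hA.final hG₁ hG₂ hφ hstar hg hjH hgj ?_
  intro c hc hgc
  by_contra hcK
  obtain ⟨i, hi, hic, hine⟩ := hA.exists_wrong hG₁ hφ hc hcK
  have hij : i ≠ j := by
    rintro rfl
    exact hine (gen_of_ne_zero hG₁ hA.gen hj hg hg0 hc hgc)
  have hAeq : A = {i, j} := by
    symm
    apply Set.eq_of_subset_of_ncard_le _ _ (Set.toFinite A)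
    · intro x hx
      rcases hx with rfl | hx
      · exact hi
      · rw [Set.mem_singleton_iff] at hx; rw [hx]; exact hj
    · rw [hAcard, Set.ncard_pair hij]
  subst hAeq
  have hiH : i ∈ H := by rw [← hA.gen]; exact subset_closure hi
  obtain ⟨f, hf, hf0, hfi⟩ := exists_dual (p := p) hG₁ hA.indep hi
  rw [hA.gen] at hf
  have hfc : f c = 0 := eq_zero_of_not_gen hG₁ hA.gen hi hf hf0 hc hine
  have hfj : f j = 0 := hf0 j hj hij.symm
  have hgi : g i = 0 := hg0 i hi hij
  -- duals in the image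
  have hφij : φ i ≠ φ j := fun h => hij (φ.injective h)
  have hI' : Indep ({φ i, φ j} : Set G₂) := by rw [← image_pair', hφ]; exact hA.indep
  obtain ⟨f', g', hf', hg', hfi', hfj', hgi', hgj'⟩ := exists_dual_pair (p := p) hG₂ hφij hI'
  set K := closure ({φ i, φ j} : Set G₂) with hK
  have hKA : closure (φ '' {i, j}) = K := by rw [image_pair']
  have hiK : φ i ∈ K := subset_closure (Set.mem_insert _ _)
  have hjK : φ j ∈ K := subset_closure (Or.inr rfl)
  rw [hKA] at hcK
  -- points with full support map into K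
  let T : Set G₁ := {y | y ∈ H ∧ f y = 1 ∧ g y = 1}
  have hTK : ∀ y ∈ T, φ y ∈ K := by
    intro y hy
    by_contra hyK
    obtain ⟨l, hl, _, hlne⟩ := hA.exists_wrong hG₁ hφ hy.1 (by rw [hKA]; exact hyK)
    rcases hl with rfl | hl
    · exact hlne (gen_of_ne_zero hG₁ hA.gen hi hf hf0 hy.1 (by rw [hy.2.1]; exact one_ne_zero))
    · rw [Set.mem_singleton_iff] at hl
      subst hl
      exact hlne (gen_of_ne_zero hG₁ hA.gen hj hg hg0 hy.1 (by rw [hy.2.2]; exact one_ne_zero))
  have hKneH : ¬ ∀ x, x ∈ H → φ x ∈ K := fun h => hcK (h c hc)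
  have hKlt : Nat.card K * p ≤ Nat.card H := by
    let S : Set G₁ := φ ⁻¹' K
    have hScard : S.ncard = Nat.card K := by
      have : φ '' S = K := Set.image_preimage_eq _ φ.surjective
      have h2 : (K : Set G₂).ncard = Nat.card K := rfl
      rw [← h2, ← this, Set.ncard_image_of_injective _ φ.injective]
    have hSH : S ⊆ H := fun x hx => hstar {i, j} hA.indep hA.gen x (by rw [hKA]; exact hx)
    have hlt : Nat.card K < Nat.card H := by
      rw [← hScard]
      apply Set.ncard_lt_ncard _ (Set.toFinite _)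
      exact ⟨hSH, fun h => hKneH fun x hx => h hx⟩
    obtain ⟨a, ha⟩ := (hG₂.to_subgroup K).exists_card_eq
    obtain ⟨b, hb⟩ := (hG₁.to_subgroup H).exists_card_eq
    rw [ha, hb] at hlt ⊢
    rw [← pow_succ]
    apply Nat.pow_le_pow_right hp.pos
    exact (Nat.pow_lt_pow_iff_right hp.one_lt).1 hlt
  have hex : ∃ y ∈ T, g' (φ y) ≠ 0 := by
    by_contra hcon
    push Not at hcon
    let M : Set G₂ := {z | z ∈ K ∧ g' z = 0}
    have hM1 : (1 : G₂) ∈ M := ⟨K.one_mem, hg'.one⟩
    have hT1 : (1 : G₁) ∉ T := by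
      rintro ⟨_, h, _⟩
      rw [hf.one] at h; exact zero_ne_one h
    have h2 := card_lt_of_maps φ hφ.map_one hT1 hM1 (fun y hy => ⟨hTK y hy, hcon y hy⟩)
    have h3 : Nat.card H ≤ p * p * T.ncard := card_le_fiber_two hf hg hiH hjH hfi hgi hfj hgj
    have h4 : M.ncard * p ≤ Nat.card K := ker_card_mul_le hg' hjK hgj'
    have h5 : 0 < p := hp.pos
    have h6 : M.ncard * p * p ≤ Nat.card H := (Nat.mul_le_mul_right p h4).trans hKlt
    have h7 : (T.ncard + 1) * (p * p) ≤ M.ncard * (p * p) := Nat.mul_le_mul_right _ h2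
    nlinarith [Nat.mul_le_mul h5 h5]
  obtain ⟨y, hyT, hgy'⟩ := hex
  have hyH : y ∈ H := hyT.1
  have hiy : i ≠ y := by
    rintro rfl
    rw [hgi'] at hgy'
    exact hgy' rfl
  -- the new basis
  have hBgen : closure {i, y} = H := by
    have h1 := gen_of_ne_zero hG₁ hA.gen hj hg hg0 hyH (by rw [hyT.2.2]; exact one_ne_zero)
    rw [pair_sdiff_right hij, Set.pair_comm] at h1
    exact h1
  have hBK : closure (φ '' {i, y}) = K := by
    rw [image_pair']
    have h1 := gen_of_ne_zero hG₂ (A := {φ i, φ j}) (H := K) hK.symm (j := φ j) (Or.inr rfl) hg'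
      (by
        intro x hx hxj
        rcases hx with rfl | hx
        · exact hgi'
        · exact absurd hx hxj) (hTK y hyT) hgy'
    rw [pair_sdiff_right hφij, Set.pair_comm] at h1
    exact h1
  have hBind : Indep ({i, y} : Set G₁) :=
    indep_of_ncard_le hG₁ hA.indep (by rw [hBgen, hA.gen])
      (by rw [hAcard, Set.ncard_pair hiy])
  have hB : MaxBasis φ H {i, y} := hA.of_eq hBind hBgen (by rw [hBK, hKA])
  obtain ⟨l, hl, _, hlne⟩ := hB.exists_wrong hG₁ hφ hc (by rw [hBK]; exact hcK)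
  rcases hl with rfl | hl
  · -- dual at i for the new basis is f - g
    apply hlne
    refine gen_of_ne_zero hG₁ hBgen (Set.mem_insert _ _) (hf.comb hg 1 (-1)) ?_ hc ?_
    · intro x hx hxi
      rcases hx with h | hx
      · exact absurd h hxi
      · rw [Set.mem_singleton_iff] at hx
        rw [hx]
        change 1 * f y + (-1) * g y = 0
        rw [hyT.2.1, hyT.2.2]; ring
    · change 1 * f c + (-1) * g c ≠ 0
      rw [hfc]
      intro h
      apply hgc
      linear_combination -h
  · rw [Set.mem_singleton_iff] at hl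
    subst hl
    apply hlne
    refine gen_of_ne_zero hG₁ hBgen (Or.inr rfl) hg ?_ hc hgc
    intro x hx hxy
    rcases hx with rfl | hx
    · exact hgi
    · exact absurd hx hxy

/-- the image of a star subgroup is generated by the image of a largest basis -/
theorem star_image (hG₁ : IsPGroup p G₁) (hG₂ : IsPGroup p G₂) (hφ : IndepIso φ)
    {H : Subgroup G₁} (hstar : Star φ H) :
    ∃ A : Set G₁, Indep A ∧ closure A = H ∧ ∀ x, φ x ∈ closure (φ '' A) ↔ x ∈ H := by
  classical
  obtain ⟨A, hA⟩ := exists_maxBasis φ H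
  refine ⟨A, hA.indep, hA.gen, ?_⟩
  rcases A.eq_empty_or_nonempty with hAe | ⟨j, hj⟩
  · -- trivial subgroup
    have hH : H = ⊥ := by rw [← hA.gen, hAe, Subgroup.closure_empty]
    intro x
    rw [hAe, Set.image_empty, Subgroup.closure_empty, hH, Subgroup.mem_bot, Subgroup.mem_bot]
    constructor
    · intro h
      apply φ.injective
      rw [h, hφ.map_one]
    · intro h
      rw [h, hφ.map_one]
  obtain ⟨g, hg, hg0, hgj⟩ := exists_dual (p := p) hG₁ hA.indep hj
  rw [hA.gen] at hg
  have hjH : j ∈ H := by rw [← hA.gen]; exact subset_closure hj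
  refine hA.final hG₁ hG₂ hφ hstar hg hjH hgj ?_
  intro c hc hgc
  by_contra hcK
  obtain ⟨i, hi, hic, hine⟩ := hA.exists_wrong hG₁ hφ hc hcK
  have hij : i ≠ j := by
    rintro rfl
    exact hine (gen_of_ne_zero hG₁ hA.gen hj hg hg0 hc hgc)
  obtain ⟨f, hf, hf0, hfi⟩ := exists_dual (p := p) hG₁ hA.indep hi
  rw [hA.gen] at hf
  have hiH : i ∈ H := by rw [← hA.gen]; exact subset_closure hi
  have hfc : f c = 0 := eq_zero_of_not_gen hG₁ hA.gen hi hf hf0 hc hine
  have hfj : f j = 0 := hf0 j hj hij.symm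
  have hgi : g i = 0 := hg0 i hi hij
  -- the pair
  have hsubA : ({i, j} : Set G₁) ⊆ A := by
    intro x hx
    rcases hx with rfl | hx
    · exact hi
    · rw [Set.mem_singleton_iff] at hx; rw [hx]; exact hj
  have hIij : Indep ({i, j} : Set G₁) := hA.indep.mono hsubA
  set Q := closure ({i, j} : Set G₁) with hQ
  have hQH : Q ≤ H := by rw [← hA.gen]; exact Subgroup.closure_mono hsubA
  have hstarQ : Star φ Q := hstar.sub hG₁ hφ hA.indep hA.gen hsubA
  obtain ⟨A₀, hA₀ind, hA₀card, hA₀gen, hA₀img⟩ := rank_two hG₁ hG₂ hφ hij hIij hstarQ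
  set Q' := closure (φ '' A₀) with hQ'
  set K := closure (φ '' A) with hK
  set D := A \ {i, j} with hD
  have hiQ : i ∈ Q := subset_closure (Set.mem_insert _ _)
  have hjQ : j ∈ Q := subset_closure (Or.inr rfl)
  have hDA : D ⊆ A := Set.sdiff_subset
  have hDcard : D.ncard + 2 = A.ncard := by
    have h2 : (A \ {i, j}).ncard + ({i, j} : Set G₁).ncard = A.ncard :=
      Set.ncard_sdiff_add_ncard_of_subset hsubA (Set.toFinite A)
    rw [Set.ncard_pair hij] at h2
    exact h2
  -- any generating pair-like set of Q completes D to a generating set of H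
  have hcomp : ∀ C : Set G₁, closure C = Q → closure (D ∪ C) = H := by
    intro C hC
    rw [← hA.gen]
    apply le_antisymm
    · rw [closure_le]
      rintro x (hx | hx)
      · exact subset_closure (hDA hx)
      · have h1 : x ∈ Q := by rw [← hC]; exact subset_closure hx
        exact Subgroup.closure_mono hsubA h1
    · rw [closure_le]
      intro x hx
      by_cases hxQ : x ∈ ({i, j} : Set G₁)
      · have h1 : x ∈ closure C := by rw [hC]; exact subset_closure hxQ
        exact Subgroup.closure_mono Set.subset_union_right h1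
      · exact subset_closure (Or.inl ⟨hx, hxQ⟩)
  -- Q' ≤ K
  have hQ'K : Q' ≤ K := by
    have h1 := hcomp A₀ hA₀gen
    have h2 : (D ∪ A₀).ncard ≤ A.ncard := by
      have := Set.ncard_union_le D A₀
      omega
    have h3 : Indep (D ∪ A₀) := indep_of_ncard_le hG₁ hA.indep (by rw [h1, hA.gen]) h2
    have h4 : Q' ≤ closure (φ '' (D ∪ A₀)) :=
      Subgroup.closure_mono (Set.image_mono Set.subset_union_right)
    have hle : K ≤ closure (φ '' (D ∪ A₀)) := by
      rw [hK, closure_le]
      rintro _ ⟨x, hx, rfl⟩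
      by_cases hxQ : x ∈ ({i, j} : Set G₁)
      · exact h4 ((hA₀img x).2 (subset_closure hxQ))
      · exact subset_closure ⟨x, Or.inl ⟨hx, hxQ⟩, rfl⟩
    have heq := hA.eq_of_le h3 h1 hle
    rw [hK, ← heq]
    exact h4
  have hIA' : Indep (φ '' A) := (hφ A).2 hA.indep
  have hφij : φ i ≠ φ j := fun h => hij (φ.injective h)
  have hIij' : Indep ({φ i, φ j} : Set G₂) := by rw [← image_pair', hφ]; exact hIij
  have hQ'eq : Q' = closure ({φ i, φ j} : Set G₂) := by
    refine closure_eq_of_small hG₂ hIA' ?_ ?_ ?_ ?_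
    · rw [← image_pair']; exact Set.image_mono hsubA
    · intro z hz
      exact hQ'K (subset_closure hz)
    · intro z hz
      rcases hz with rfl | hz
      · exact (hA₀img i).2 hiQ
      · rw [Set.mem_singleton_iff] at hz; rw [hz]; exact (hA₀img j).2 hjQ
    · rw [Set.ncard_pair hφij, Set.ncard_image_of_injective _ φ.injective, hA₀card]
  obtain ⟨f', g', hf', hg', hfi', hfj', hgi', hgj'⟩ := exists_dual_pair (p := p) hG₂ hφij hIij'
  rw [← hQ'eq] at hf' hg'
  obtain ⟨x, hx, y, hy, hfx, hfy, hdet, hdet'⟩ := common_pair φ hφ.map_one (Q := Q) (Q' := Q')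
    hA₀img hiQ hjQ (hf.mono hQH) (hg.mono hQH) hfi hfj hgi hgj hf' hg' hfi' hfj' hgi' hgj'
  have hxy : x ≠ y := by
    rintro rfl
    apply hdet; ring
  have hgenQ : closure {x, y} = Q := gen_pair hG₁ hQ.symm (hf.mono hQH) (hg.mono hQH) hfi hfj
    hgi hgj hx hy hdet
  have hgenQ' : closure {φ x, φ y} = Q' := gen_pair hG₂ hQ'eq.symm hf' hg' hfi' hfj'
    hgi' hgj' ((hA₀img x).2 hx) ((hA₀img y).2 hy) hdet'
  have hxH : x ∈ H := hQH hx
  have hyH : y ∈ H := hQH hy
  -- the new basis
  set B := D ∪ {x, y} with hB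
  have hBgen : closure B = H := hcomp _ hgenQ
  have hBcard : B.ncard ≤ A.ncard := by
    have h1 : B.ncard ≤ D.ncard + ({x, y} : Set G₁).ncard := Set.ncard_union_le D {x, y}
    rw [Set.ncard_pair hxy] at h1
    omega
  have hBind : Indep B := indep_of_ncard_le hG₁ hA.indep (by rw [hBgen, hA.gen]) hBcard
  have hQ'B : Q' ≤ closure (φ '' B) := by
    rw [← hgenQ', ← image_pair']
    exact Subgroup.closure_mono (Set.image_mono Set.subset_union_right)
  have hKB : K ≤ closure (φ '' B) := by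
    rw [hK, closure_le]
    rintro _ ⟨z, hz, rfl⟩
    by_cases hzQ : z ∈ ({i, j} : Set G₁)
    · exact hQ'B ((hA₀img z).2 (subset_closure hzQ))
    · exact subset_closure ⟨z, Or.inl ⟨hz, hzQ⟩, rfl⟩
  have hBK : closure (φ '' B) = K := hA.eq_of_le hBind hBgen hKB
  have hBmax : MaxBasis φ H B := hA.of_eq hBind hBgen hBK
  have hcKB : φ c ∉ closure (φ '' B) := by rw [hBK]; exact hcK
  -- x, y are not in D
  have hnotD : ∀ z ∈ Q, z ∉ D := by
    intro z hz hzD
    apply hA.indep z hzD.1
    refine Subgroup.closure_mono ?_ hz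
    intro w hw
    exact ⟨hsubA hw, fun hwz => hzD.2 (by rw [← (show w = z from hwz)]; exact hw)⟩
  have hxD := hnotD x hx
  have hyD := hnotD y hy
  -- the exchange in the image
  have hAi : φ '' (A \ {i}) ⊆ insert (φ j) (φ '' D) := by
    rintro _ ⟨z, ⟨hz, hzi⟩, rfl⟩
    by_cases hzj : z = j
    · rw [hzj]; exact Set.mem_insert _ _
    · refine Or.inr ⟨z, ⟨hz, ?_⟩, rfl⟩
      rintro (h | h)
      · exact hzi h
      · exact hzj h
  have hic' : φ i ∈ closure (insert (φ c) (insert (φ j) (φ '' D))) :=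
    Subgroup.closure_mono (Set.insert_subset_insert hAi) hic
  -- generation after exchanging with c, for both x and y
  have hgenc : ∀ z ∈ Q, f z ≠ 0 → closure (insert c (insert z D)) = H := by
    intro z hz hfz
    by_contra hne
    have hzH : z ∈ H := hQH hz
    have hlt : closure (insert c (insert z D)) < H := by
      refine lt_of_le_of_ne ((closure_le _).2 ?_) hne
      apply Set.insert_subset hc
      apply Set.insert_subset hzH
      intro w hw
      rw [← hA.gen]; exact subset_closure (hDA hw)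
    obtain ⟨h, hh, hh0, b, hb, hhb⟩ := exists_homOn hG₁ hlt
    have hhc : h c = 0 := hh0 c (subset_closure (Set.mem_insert _ _))
    have hhz : h z = 0 := hh0 z (subset_closure (Or.inr (Set.mem_insert _ _)))
    have key : ∀ w ∈ H, h w = h i * f w + h j * g w := by
      intro w hw
      refine hh.eq_of_closure (hf.comb hg (h i) (h j)) hA.gen ?_ hw
      intro v hv
      change h v = h i * f v + h j * g v
      by_cases hvi : v = i
      · rw [hvi, hfi, hgi]; ring
      · by_cases hvj : v = j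
        · rw [hvj, hfj, hgj]; ring
        · rw [hf0 v hv hvi, hg0 v hv hvj, hh0 v (subset_closure (Or.inr (Or.inr ⟨hv, ?_⟩)))]
          · ring
          · rintro (h | h)
            · exact hvi h
            · exact hvj h
    have h1 := key c hc
    rw [hhc, hfc] at h1
    have h2 : h j = 0 := by
      have : h j * g c = 0 := by linear_combination -h1
      exact (mul_eq_zero.1 this).resolve_right hgc
    have h3 := key z hzH
    rw [hhz, h2] at h3
    have h4 : h i = 0 := by
      have : h i * f z = 0 := by linear_combination -h3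
      exact (mul_eq_zero.1 this).resolve_right hfz
    have h5 := key b hb
    rw [h2, h4, hhb] at h5
    simp at h5
  have hBx : B \ {x} = insert y D := by
    ext z
    simp only [hB, Set.mem_sdiff, Set.mem_union, Set.mem_insert_iff, Set.mem_singleton_iff]
    constructor
    · rintro ⟨h | h | h, hzx⟩
      · exact Or.inr h
      · exact absurd h hzx
      · exact Or.inl h
    · rintro (h | h)
      · rw [h]; exact ⟨Or.inr (Or.inr rfl), hxy.symm⟩
      · exact ⟨Or.inl h, fun hzx => hxD (hzx ▸ h)⟩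
  have hBy : B \ {y} = insert x D := by
    ext z
    simp only [hB, Set.mem_sdiff, Set.mem_union, Set.mem_insert_iff, Set.mem_singleton_iff]
    constructor
    · rintro ⟨h | h | h, hzy⟩
      · exact Or.inr h
      · exact Or.inl h
      · exact absurd h hzy
    · rintro (h | h)
      · rw [h]; exact ⟨Or.inr (Or.inl rfl), hxy⟩
      · exact ⟨Or.inl h, fun hzy => hyD (hzy ▸ h)⟩
  have hxB : x ∈ B := Or.inr (Set.mem_insert _ _)
  have hyB : y ∈ B := Or.inr (Or.inr rfl)
  rcases pair_exchange (p := p) hG₂ (D := φ '' D) (u := φ i) (v := φ j) (x := φ x) (y := φ y)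
    (c := φ c) (by rw [hgenQ', hQ'eq]) hic' with h | h
  · apply hBmax.exchange hG₁ hcKB hxB (by rw [hBx, Set.image_insert_eq]; exact h)
    rw [hBx]
    exact hgenc y hy hfy
  · apply hBmax.exchange hG₁ hcKB hyB (by rw [hBy, Set.image_insert_eq]; exact h)
    rw [hBy]
    exact hgenc x hx hfx

/-- the image of a `d`-maximal subgroup -/
theorem maximal_image (hG₁ : IsPGroup p G₁) (hG₂ : IsPGroup p G₂) (hφ : IndepIso φ)
    {H : Subgroup G₁} (hmax : ∀ L : Subgroup G₁, H ≤ L → d L ≤ d H → L = H) :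
    ∃ A : Set G₁, Indep A ∧ closure A = H ∧ ∀ x, φ x ∈ closure (φ '' A) ↔ x ∈ H := by
  apply star_image hG₁ hG₂ hφ
  intro A hA hAH x hx
  by_contra hxH
  have hxA : x ∉ A := fun h => hxH (hAH ▸ subset_closure h)
  have h1 : Indep (insert x A) :=
    indep_insert_of_maximal hAH (by rw [hA.ncard_eq_d hG₁, hAH]) hmax hxH
  rw [← hφ, Set.image_insert_eq] at h1
  refine not_indep_insert ?_ hx h1
  rintro ⟨y, hy, hyx⟩
  exact hxA (φ.injective hyx ▸ hy)

/-- enlarging a subgroup to a maximal one among those with at most `k` generators -/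
theorem exists_maximal_le {G : Type*} [Group G] [Finite G] {H : Subgroup G} {k : ℕ}
    (hk : d H ≤ k) : ∃ M : Subgroup G, H ≤ M ∧ d M ≤ k ∧
      ∀ L : Subgroup G, M ≤ L → d L ≤ k → L = M := by
  obtain ⟨M, ⟨hM1, hM2⟩, hM3⟩ := Set.exists_max_image {M : Subgroup G | H ≤ M ∧ d M ≤ k}
    (fun M => Nat.card M) (Set.toFinite _) ⟨H, le_rfl, hk⟩
  refine ⟨M, hM1, hM2, fun L hL hdL => ?_⟩
  exact (Subgroup.eq_of_le_of_card_ge hL (hM3 L ⟨hM1.trans hL, hdL⟩)).symm

theorem pgroup_forward (hG₁ : IsPGroup p G₁) (hG₂ : IsPGroup p G₂) (hφ : IndepIso φ)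
    {A : Set G₁} (h : StrongIndep (φ '' A)) : StrongIndep A := by
  by_contra hcon
  unfold StrongIndep at hcon
  push Not at hcon
  obtain ⟨H, hAH, hdH⟩ := hcon
  obtain ⟨M, hHM, hdM, hMmax⟩ := exists_maximal_le (H := H) (k := d H) le_rfl
  have hmax : ∀ L : Subgroup G₁, M ≤ L → d L ≤ d M → L = M :=
    fun L h1 h2 => hMmax L h1 (h2.trans hdM)
  obtain ⟨B, hB, hBM, himg⟩ := maximal_image hG₁ hG₂ hφ hmax
  have h1 := h (closure (φ '' B)) (by
    rintro _ ⟨x, hx, rfl⟩
    exact (himg x).2 (hHM (hAH hx)))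
  have h2 : d (closure (φ '' B)) ≤ (φ '' B).ncard := d_le rfl
  rw [Set.ncard_image_of_injective _ φ.injective] at h1 h2
  rw [hB.ncard_eq_d hG₁, hBM] at h2
  omega

theorem pgroup_iso (hG₁ : IsPGroup p G₁) (hG₂ : IsPGroup p G₂) (hφ : IndepIso φ) (A : Set G₁) :
    StrongIndep (φ '' A) ↔ StrongIndep A := by
  constructor
  · exact pgroup_forward hG₁ hG₂ hφ
  · intro h
    apply pgroup_forward hG₂ hG₁ hφ.symm
    rw [← Set.image_comp]
    simpa using h

end main

end Pool.Agent.IndComp
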